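import Pool.Agent.H621.BC.Wt
import Pool.Agent.R917.GL.Gou2

set_option autoImplicit false
set_option linter.unusedSectionVars false

/-!
# The dimension of a faithful representation of a Lie algebra which maps onto a product of `sl(2)`'s
-/

open Module Finset LieModule

noncomputable section

namespace Pool.Agent.H621.BC

open Pool.Agent.H914
open Pool.Agent.R917.GL (M2 tz lb E F Hh tz_E tz_F tz_H E_ne exists_lb ideal_top lb_EF lb_HE lb_HF
  lb_anti H_ne)

attribute [local instance 100] LieRing.ofAssociativeRing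

/-- A representation of a Lie algebra whose image maps onto a product of copies of `sl(2)`. -/
structure Cap (L V : Type) {ι : Type} [LieRing L] [LieAlgebra ℂ L] [AddCommGroup V] [Module ℂ V]
    [LieRingModule L V] [LieModule ℂ L V] (S : Finset ι) (φ : L →ₗ[ℂ] (ι → M2)) : Prop where
  tr : ∀ x, ∀ i ∈ S, tz (φ x i)
  br : ∀ x y, ∀ i ∈ S, φ ⁅x, y⁆ i = lb (φ x i) (φ y i)
  su : ∀ i ∈ S, ∀ a, tz a → ∃ x, φ x i = a ∧ ∀ j ∈ S, j ≠ i → φ x j = 0
  ke : ∀ x, (∀ v : V, ⁅x, v⁆ = 0) → ∀ i ∈ S, φ x i = 0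

variable {L V ι : Type} [LieRing L] [LieAlgebra ℂ L] [AddCommGroup V] [Module ℂ V]
  [LieRingModule L V] [LieModule ℂ L V] {S : Finset ι} {φ : L →ₗ[ℂ] (ι → M2)}

theorem lb_zero_right (x : M2) : lb x 0 = 0 := by simp [lb]

theorem lb_zero_left (x : M2) : lb 0 x = 0 := by simp [lb]

namespace Cap

/-- An ideal with a component which is not zero contains the whole component. -/
theorem ideal (c : Cap L V S φ) (K : LieIdeal ℂ L) {i : ι} (hi : i ∈ S) {x₀ : L} (h₀ : x₀ ∈ K)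
    (hne : φ x₀ i ≠ 0) {a : M2} (ha : tz a) :
    ∃ x ∈ K, φ x i = a ∧ ∀ j ∈ S, j ≠ i → φ x j = 0 := by
  let I : Submodule ℂ M2 :=
    { carrier := {a | ∃ x ∈ K, φ x i = a ∧ ∀ j ∈ S, j ≠ i → φ x j = 0}
      zero_mem' := ⟨0, K.zero_mem, by rw [map_zero, Pi.zero_apply], fun j _ _ => by
        rw [map_zero, Pi.zero_apply]⟩
      add_mem' := by
        rintro _ _ ⟨x, hx, rfl, h1⟩ ⟨y, hy, rfl, h2⟩
        exact ⟨x + y, K.add_mem hx hy, by rw [map_add, Pi.add_apply], fun j hj hji => by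
          rw [map_add, Pi.add_apply, h1 j hj hji, h2 j hj hji, add_zero]⟩
      smul_mem' := by
        rintro t _ ⟨x, hx, rfl, h1⟩
        exact ⟨t • x, K.smul_mem t hx, by rw [map_smul, Pi.smul_apply], fun j hj hji => by
          rw [map_smul, Pi.smul_apply, h1 j hj hji, smul_zero]⟩ }
  have hI : ∀ a, a ∈ I ↔ ∃ x ∈ K, φ x i = a ∧ ∀ j ∈ S, j ≠ i → φ x j = 0 := fun a => Iff.rfl
  rw [← hI]
  obtain ⟨y, hy, hy0⟩ := exists_lb (c.tr x₀ i hi) hne
  refine ideal_top (I := I) (x₀ := lb (φ x₀ i) y) ?_ ?_ ?_ hy0 ha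
  · rintro _ ⟨x, hx, rfl, h1⟩
    exact c.tr x i hi
  · rintro _ ⟨x, hx, rfl, h1⟩ z hz
    obtain ⟨w, hw, hw2⟩ := c.su i hi z hz
    refine ⟨⁅w, x⁆, K.lie_mem hx, by rw [c.br _ _ _ hi, hw], fun j hj hji => ?_⟩
    rw [c.br _ _ _ hj, hw2 j hj hji, lb_zero_left]
  · obtain ⟨w, hw, hw2⟩ := c.su i hi y hy
    refine ⟨⁅x₀, w⁆, ?_, by rw [c.br _ _ _ hi, hw], fun j hj hji => ?_⟩
    · rw [← lie_skew]
      exact K.neg_mem (K.lie_mem h₀)
    · rw [c.br _ _ _ hj, hw2 j hj hji, lb_zero_right]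

variable (φ) in
/-- the indices of the components on which the kernel acts -/
theorem exists_part [DecidableEq ι] (S : Finset ι) (K : LieIdeal ℂ L) : ∃ S₁ ⊆ S,
    ∀ i ∈ S, i ∈ S₁ ↔ ∃ x ∈ K, φ x i ≠ 0 := by
  classical
  refine ⟨S.filter fun i => ∃ x ∈ K, φ x i ≠ 0, Finset.filter_subset _ _, fun i hi => ?_⟩
  rw [Finset.mem_filter]
  exact ⟨fun h => h.2, fun h => ⟨hi, h⟩⟩

/-- **A subrepresentation.** -/
theorem split [DecidableEq ι] (c : Cap L V S φ) (W : LieSubmodule ℂ L V) : ∃ S₁ ⊆ S,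
    Cap L W (S \ S₁) φ ∧
      Cap (LieModule.ker ℂ L W) (V ⧸ W) S₁ (φ ∘ₗ (LieModule.ker ℂ L W).toSubmodule.subtype) := by
  obtain ⟨S₁, hS₁, h1⟩ := exists_part φ S (LieModule.ker ℂ L W)
  refine ⟨S₁, hS₁, ⟨fun x i hi => c.tr x i (Finset.sdiff_subset hi), fun x y i hi =>
    c.br x y i (Finset.sdiff_subset hi), fun i hi a ha => ?_, fun x hx i hi => ?_⟩,
    ⟨fun x i hi => c.tr _ i (hS₁ hi), fun x y i hi => c.br _ _ i (hS₁ hi), fun i hi a ha => ?_,
      fun x hx i hi => ?_⟩⟩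
  · obtain ⟨x, h2, h3⟩ := c.su i (Finset.sdiff_subset hi) a ha
    exact ⟨x, h2, fun j hj => h3 j (Finset.sdiff_subset hj)⟩
  · obtain ⟨hiS, hi1⟩ := Finset.mem_sdiff.1 hi
    by_contra hne
    exact hi1 ((h1 i hiS).2 ⟨x, (LieModule.mem_ker ℂ L W x).2 hx, hne⟩)
  · obtain ⟨x₀, h₀, hne⟩ := (h1 i (hS₁ hi)).1 hi
    obtain ⟨x, hx, h2, h3⟩ := c.ideal (LieModule.ker ℂ L W) (hS₁ hi) h₀ hne ha
    exact ⟨⟨x, hx⟩, h2, fun j hj => h3 j (hS₁ hj)⟩
  · by_contra hne
    -- the ideal which acts trivially on the submodule and on the quotient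
    let K₂ : LieIdeal ℂ L := LieModule.ker ℂ L W ⊓ LieModule.ker ℂ L (V ⧸ W)
    have hK : ∀ x ∈ K₂, ∀ v : V, ⁅x, v⁆ ∈ W := by
      intro x hx v
      have h2 := (LieModule.mem_ker ℂ L (V ⧸ W) x).1 (LieSubmodule.mem_inf _ _ _ |>.1 hx).2
        (LieSubmodule.Quotient.mk v)
      change (LieSubmodule.Quotient.mk (N := W) ⁅x, v⁆) = 0 at h2
      rwa [LieSubmodule.Quotient.mk_eq_zero'] at h2
    have hK' : ∀ x ∈ K₂, ∀ w ∈ W, ⁅x, w⁆ = 0 := by
      intro x hx w hw
      have h2 := (LieModule.mem_ker ℂ L W x).1 (LieSubmodule.mem_inf _ _ _ |>.1 hx).1 ⟨w, hw⟩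
      exact congrArg Subtype.val h2
    have hx2 : (x : L) ∈ K₂ := by
      refine (LieSubmodule.mem_inf _ _ _).2 ⟨x.2, (LieModule.mem_ker ℂ L (V ⧸ W) _).2 fun m => ?_⟩
      exact hx m
    obtain ⟨e, he, e1, -⟩ := c.ideal K₂ (hS₁ hi) hx2 hne tz_E
    obtain ⟨f, hf, f1, -⟩ := c.ideal K₂ (hS₁ hi) hx2 hne tz_F
    have h3 := c.ke ⁅e, f⁆ (fun v => by
      rw [lie_lie, hK' e he _ (hK f hf v), hK' f hf _ (hK e he v), sub_zero]) i (hS₁ hi)
    rw [c.br _ _ _ (hS₁ hi), e1, f1, lb_EF] at h3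
    exact H_ne h3

/-- **An irreducible representation.** -/
theorem irr [FiniteDimensional ℂ V] [Nontrivial V] (c : Cap L V S φ)
    (hirr : ∀ W : LieSubmodule ℂ L V, W ≠ ⊥ → W = ⊤) : 2 * S.card ≤ finrank ℂ V := by
  classical
  have hn : (finrank ℂ V : ℂ) ≠ 0 := by
    exact_mod_cast (finrank_pos (R := ℂ) (M := V)).ne'
  let tr : L →ₗ[ℂ] ℂ := (finrank ℂ V : ℂ)⁻¹ • (LinearMap.trace ℂ V ∘ₗ (toEnd ℂ L V).toLinearMap)
  have htr : ∀ x y : L, tr ⁅x, y⁆ = 0 := by
    intro x y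
    change (finrank ℂ V : ℂ)⁻¹ • LinearMap.trace ℂ V (toEnd ℂ L V ⁅x, y⁆) = 0
    rw [LieHom.map_lie, LieRing.of_associative_ring_bracket, map_sub, LinearMap.trace_mul_comm,
      sub_self, smul_zero]
  let ψ : L →ₗ⁅ℂ⁆ Module.End ℂ V :=
    { toFun := fun x => toEnd ℂ L V x - tr x • (1 : Module.End ℂ V)
      map_add' := fun x y => by
        rw [map_add, map_add, add_smul]
        abel
      map_smul' := fun a x => by
        rw [map_smul, map_smul, RingHom.id_apply, smul_sub, smul_assoc]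
      map_lie' := fun {x y} => by
        rw [LieHom.map_lie, htr, zero_smul, sub_zero, LieRing.of_associative_ring_bracket,
          LieRing.of_associative_ring_bracket, sub_mul, mul_sub, mul_sub, sub_mul, mul_sub, mul_sub]
        simp only [smul_mul_assoc, mul_smul_comm, one_mul, mul_one]
        rw [smul_comm (tr x) (tr y)]
        abel }
  have hψ : ∀ x, ψ x = toEnd ℂ L V x - tr x • (1 : Module.End ℂ V) := fun x => rfl
  have hψv : ∀ x (v : V), ψ x v = ⁅x, v⁆ - tr x • v := fun x v => rfl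
  have hψ0 : ∀ x, ψ x = 0 → ∀ i ∈ S, φ x i = 0 := by
    intro x hx i hi
    by_contra hne
    obtain ⟨y, hy, hy0⟩ := exists_lb (c.tr x i hi) hne
    obtain ⟨w, hw, -⟩ := c.su i hi y hy
    apply hy0
    rw [← hw, ← c.br _ _ _ hi]
    refine c.ke _ (fun v => ?_) i hi
    have h1 : ∀ v : V, ⁅x, v⁆ = tr x • v := by
      intro v
      have h2 := hψv x v
      rw [hx, LinearMap.zero_apply] at h2
      exact (sub_eq_zero.1 h2.symm)
    rw [lie_lie, h1, h1, lie_smul, sub_self]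
  let 𝔤 : LieSubalgebra ℂ (Module.End ℂ V) := ψ.range
  have hact : ∀ (g : 𝔤) (v : V), ⁅g, v⁆ = (g : Module.End ℂ V) v := fun g v => rfl
  have hirr' : LieModule.IsIrreducible ℂ 𝔤 V := by
    refine LieModule.IsIrreducible.mk fun N hN => ?_
    let N' : LieSubmodule ℂ L V :=
      { N.toSubmodule with
        lie_mem := by
          intro x m hm
          have h1 : ⁅x, m⁆ = ψ x m + tr x • m := by
            rw [hψv, sub_add_cancel]
          rw [h1]
          refine N.add_mem ?_ (N.smul_mem _ hm)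
          exact N.lie_mem (x := ⟨ψ x, ⟨x, rfl⟩⟩) hm }
    have hN' : ∀ v, v ∈ N' ↔ v ∈ N := fun v => Iff.rfl
    have h2 := hirr N' (fun h => hN (by
      rw [LieSubmodule.eq_bot_iff] at h ⊢
      exact fun v hv => h v hv))
    rw [eq_top_iff]
    intro v _
    rw [← hN', h2]
    exact LieSubmodule.mem_top v
  have hrad : LieAlgebra.HasTrivialRadical ℂ 𝔤 := by
    refine LieAlgebra.hasTrivialRadical_of_isIrreducible_of_isFaithful ℂ 𝔤 V fun x => ?_
    obtain ⟨y, hy⟩ := x.2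
    have h1 : toEnd ℂ 𝔤 V x = ψ y := by
      rw [show ψ y = (x : Module.End ℂ V) from hy]
      rfl
    rw [h1, hψ, map_sub, map_smul, LinearMap.trace_one, smul_eq_mul]
    change _ - ((finrank ℂ V : ℂ)⁻¹ * LinearMap.trace ℂ V (toEnd ℂ L V y)) * _ = 0
    field_simp
    ring
  have hKil : LieAlgebra.IsKilling ℂ 𝔤 := inferInstance
  -- the kernel
  let N : LieIdeal ℂ 𝔤 :=
    { carrier := {g | ∃ x, ψ x = (g : Module.End ℂ V) ∧ ∀ i ∈ S, φ x i = 0}
      zero_mem' := ⟨0, by rw [map_zero]; rfl, fun i _ => by rw [map_zero, Pi.zero_apply]⟩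
      add_mem' := by
        rintro g g' ⟨x, hx, h1⟩ ⟨x', hx', h1'⟩
        exact ⟨x + x', by rw [map_add, hx, hx']; rfl, fun i hi => by
          rw [map_add, Pi.add_apply, h1 i hi, h1' i hi, add_zero]⟩
      smul_mem' := by
        rintro a g ⟨x, hx, h1⟩
        exact ⟨a • x, by rw [map_smul, hx]; rfl, fun i hi => by
          rw [map_smul, Pi.smul_apply, h1 i hi, smul_zero]⟩
      lie_mem := by
        rintro g g' ⟨x', hx', h1'⟩
        obtain ⟨x, hx⟩ := g.2
        exact ⟨⁅x, x'⁆, by rw [LieHom.map_lie, hx', show ψ x = (g : Module.End ℂ V) from hx]; rfl,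
          fun i hi => by rw [c.br _ _ _ hi, h1' i hi, lb_zero_right]⟩ }
  have hN : ∀ g : 𝔤, g ∈ N ↔ ∃ x, ψ x = (g : Module.End ℂ V) ∧ ∀ i ∈ S, φ x i = 0 := fun g =>
    Iff.rfl
  have hcomp : IsCompl N N.killingCompl := LieIdeal.isCompl_killingCompl N
  -- values
  let R : 𝔤 → (ι → M2) → Prop := fun g b => ∃ x, ψ x = (g : Module.End ℂ V) ∧
    ∀ i ∈ S, φ x i = b i
  have huniq : ∀ g ∈ N.killingCompl, ∀ g' ∈ N.killingCompl, ∀ b, R g b → R g' b → g = g' := by
    rintro g hg g' hg' b ⟨x, hx, h1⟩ ⟨x', hx', h1'⟩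
    rw [← sub_eq_zero]
    have h2 : g - g' ∈ N := (hN _).2 ⟨x - x', by rw [map_sub, hx, hx']; rfl, fun i hi => by
      rw [map_sub, Pi.sub_apply, h1 i hi, h1' i hi, sub_self]⟩
    have h3 : g - g' ∈ N ⊓ N.killingCompl := (LieSubmodule.mem_inf _ _ _).2
      ⟨h2, N.killingCompl.sub_mem hg hg'⟩
    rw [hcomp.inf_eq_bot] at h3
    simpa using h3
  have hex : ∀ i ∈ S, ∀ a, tz a → ∃ g ∈ N.killingCompl, R g (Pi.single i a) := by
    intro i hi a ha
    obtain ⟨x, h1, h2⟩ := c.su i hi a ha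
    have h3 : (⟨ψ x, ⟨x, rfl⟩⟩ : 𝔤) ∈ N ⊔ N.killingCompl := by
      rw [hcomp.sup_eq_top]
      exact LieSubmodule.mem_top _
    obtain ⟨u, hu, v, hv, huv⟩ := (LieSubmodule.mem_sup _ _ _).1 h3
    obtain ⟨y, hy, h4⟩ := (hN u).1 hu
    refine ⟨v, hv, x - y, ?_, fun j hj => ?_⟩
    · rw [map_sub, hy]
      have h5 := congrArg (fun g : 𝔤 => (g : Module.End ℂ V)) huv
      change (u : Module.End ℂ V) + (v : Module.End ℂ V) = ψ x at h5
      rw [← h5, add_sub_cancel_left]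
    · rw [map_sub, Pi.sub_apply, h4 j hj, sub_zero]
      by_cases hji : j = i
      · subst hji
        rw [h1, Pi.single_eq_same]
      · rw [h2 j hj hji, Pi.single_eq_of_ne hji]
  have hex' : ∀ (i : {i // i ∈ S}) (a : {a // tz a}), ∃ g ∈ N.killingCompl,
      R g (Pi.single i.1 a.1) := fun i a => hex i.1 i.2 a.1 a.2
  choose T hT hTR using hex'
  have hlie : ∀ g g' b b', R g b → R g' b' → R ⁅g, g'⁆ (fun i => lb (b i) (b' i)) := by
    rintro g g' b b' ⟨x, hx, h1⟩ ⟨x', hx', h1'⟩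
    exact ⟨⁅x, x'⁆, by rw [LieHom.map_lie, hx, hx']; rfl, fun i hi => by
      rw [c.br _ _ _ hi, h1 i hi, h1' i hi]⟩
  have hsm : ∀ g b (a : ℂ), R g b → R (a • g) (a • b) := by
    rintro g b a ⟨x, hx, h1⟩
    exact ⟨a • x, by rw [map_smul, hx]; rfl, fun i hi => by
      rw [map_smul, Pi.smul_apply, Pi.smul_apply, h1 i hi]⟩
  have hbr : ∀ (i : {i // i ∈ S}) (a b : {a // tz a}) (t : ℂ) (d : {a // tz a}),
      lb a.1 b.1 = t • d.1 → ⁅T i a, T i b⁆ = t • T i d := by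
    intro i a b t d h
    refine huniq _ (N.killingCompl.lie_mem (hT i b)) _ (N.killingCompl.smul_mem t (hT i d))
      (t • (Pi.single i.1 d.1 : ι → M2)) ?_ (hsm _ _ _ (hTR i d))
    have h1 := hlie _ _ _ _ (hTR i a) (hTR i b)
    convert h1 using 1
    funext j
    by_cases hj : j = i.1
    · subst hj
      rw [Pi.smul_apply, Pi.single_eq_same, Pi.single_eq_same, Pi.single_eq_same, h]
    · rw [Pi.smul_apply, Pi.single_eq_of_ne hj, Pi.single_eq_of_ne hj, Pi.single_eq_of_ne hj,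
        lb_zero_left, smul_zero]
  have hcm : ∀ (i j : {i // i ∈ S}) (a b : {a // tz a}), i ≠ j → ⁅T i a, T j b⁆ = 0 := by
    intro i j a b hij
    refine huniq _ (N.killingCompl.lie_mem (hT j b)) _ N.killingCompl.zero_mem 0 ?_
      ⟨0, by rw [map_zero]; rfl, fun i _ => by rw [map_zero]⟩
    have h1 := hlie _ _ _ _ (hTR i a) (hTR j b)
    convert h1 using 1
    funext k
    by_cases hk : k = i.1
    · have hkj : k ≠ j.1 := fun h => hij (Subtype.ext (hk.symm.trans h))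
      rw [Pi.single_eq_of_ne hkj, lb_zero_right]
      rfl
    · rw [Pi.single_eq_of_ne hk, lb_zero_left]
      rfl
  have hmul : ∀ g g' : 𝔤, ((⁅g, g'⁆ : 𝔤) : Module.End ℂ V) =
      (g : Module.End ℂ V) * (g' : Module.End ℂ V) - (g' : Module.End ℂ V) * (g : Module.End ℂ V) :=
    fun g g' => rfl
  have hcm' : ∀ (i j : {i // i ∈ S}) (a b : {a // tz a}), i ≠ j →
      Commute (T i a : Module.End ℂ V) (T j b : Module.End ℂ V) := by
    intro i j a b hij
    have h1 := congrArg (fun g : 𝔤 => (g : Module.End ℂ V)) (hcm i j a b hij)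
    exact sub_eq_zero.1 h1
  have key := sl2_bound (V := V) (ι := {i // i ∈ S}) (fun i => T i ⟨E, tz_E⟩)
    (fun i => T i ⟨Hh, tz_H⟩) (fun i => T i ⟨F, tz_F⟩) (fun i => by
      have h1 := hbr i ⟨E, tz_E⟩ ⟨F, tz_F⟩ 1 ⟨Hh, tz_H⟩ (by rw [lb_EF, one_smul])
      have h2 := hbr i ⟨Hh, tz_H⟩ ⟨E, tz_E⟩ 2 ⟨E, tz_E⟩ lb_HE
      have h3 := hbr i ⟨Hh, tz_H⟩ ⟨F, tz_F⟩ (-2) ⟨F, tz_F⟩ lb_HF
      have h1' := congrArg (fun g : 𝔤 => (g : Module.End ℂ V)) h1
      have h2' := congrArg (fun g : 𝔤 => (g : Module.End ℂ V)) h2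
      have h3' := congrArg (fun g : 𝔤 => (g : Module.End ℂ V)) h3
      refine ⟨?_, ?_, ?_⟩
      · rw [one_smul] at h1'
        exact h1'
      · refine Eq.trans h2' ?_
        refine LinearMap.ext fun v => ?_
        change (2 : ℂ) • ((T i ⟨E, tz_E⟩ : Module.End ℂ V) v) = _
        rw [Module.End.mul_apply, Module.End.ofNat_apply, ofNat_smul_eq_nsmul]
      · refine Eq.trans h3' ?_
        refine LinearMap.ext fun v => ?_
        change (-2 : ℂ) • ((T i ⟨F, tz_F⟩ : Module.End ℂ V) v) = _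
        rw [LinearMap.neg_apply, Module.End.mul_apply, Module.End.ofNat_apply, neg_smul,
          ofNat_smul_eq_nsmul]) (fun i h0 => by
      obtain ⟨x, hx, h1⟩ := hTR i ⟨E, tz_E⟩
      have h2 := hψ0 x (by rw [hx]; exact h0) i.1 i.2
      rw [h1 i.1 i.2, Pi.single_eq_same] at h2
      exact E_ne h2) (fun i j hij => hcm' i j _ _ hij) (fun i j hij => hcm' i j _ _ hij)
      (fun i j => by
        by_cases hij : i = j
        · subst hij
          exact Commute.refl _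
        · exact hcm' i j _ _ hij)
  rwa [Fintype.card_coe] at key

end Cap

theorem finrank_quot [FiniteDimensional ℂ V] (W : LieSubmodule ℂ L V) :
    finrank ℂ (V ⧸ W) + finrank ℂ W = finrank ℂ V :=
  Submodule.finrank_quotient_add_finrank W.toSubmodule

/-- **The dimension.** -/
theorem bound (n : ℕ) : ∀ {L V ι : Type} [LieRing L] [LieAlgebra ℂ L] [AddCommGroup V] [Module ℂ V]
    [LieRingModule L V] [LieModule ℂ L V] [FiniteDimensional ℂ V] {S : Finset ι}
    {φ : L →ₗ[ℂ] (ι → M2)}, finrank ℂ V ≤ n → Cap L V S φ → 2 * S.card ≤ finrank ℂ V := by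
  classical
  induction n with
  | zero =>
    intro L V ι _ _ _ _ _ _ _ S φ hn c
    have h0 : finrank ℂ V = 0 := Nat.le_zero.1 hn
    have hV : Subsingleton V := finrank_zero_iff.1 h0
    have hS : S = ∅ := by
      rw [Finset.eq_empty_iff_forall_notMem]
      intro i hi
      obtain ⟨x, hx, -⟩ := c.su i hi E tz_E
      have h1 := c.ke x (fun v => Subsingleton.elim _ _) i hi
      rw [hx] at h1
      exact E_ne h1
    rw [hS]
    simp
  | succ n ih =>
    intro L V ι _ _ _ _ _ _ _ S φ hn c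
    by_cases hirr : ∀ W : LieSubmodule ℂ L V, W ≠ ⊥ → W = ⊤
    · rcases subsingleton_or_nontrivial V with hV | hV
      · exact ih (by rw [finrank_zero_iff.2 hV]; exact Nat.zero_le n) c
      · exact c.irr hirr
    · push Not at hirr
      obtain ⟨W, hW0, hW1⟩ := hirr
      obtain ⟨S₁, hS₁, c1, c2⟩ := c.split W
      have h1 := finrank_quot W
      have h2 : 0 < finrank ℂ W := by
        rw [Module.finrank_pos_iff]
        exact (LieSubmodule.nontrivial_iff_ne_bot ℂ L V).2 hW0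
      have h3 : 0 < finrank ℂ (V ⧸ W) := by
        rw [Module.finrank_pos_iff]
        refine Submodule.Quotient.nontrivial_iff.2 fun h => hW1 ?_
        rw [← LieSubmodule.toSubmodule_inj, h]
        rfl
      have h4 := ih (by omega) c1
      have h5 := ih (by omega) c2
      have h6 := Finset.card_sdiff_add_card_eq_card hS₁
      omega

/-- **The dimension, for a filtration.** -/
theorem bound_filt (k : ℕ) : ∀ {L V ι : Type} [LieRing L] [LieAlgebra ℂ L] [AddCommGroup V]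
    [Module ℂ V] [LieRingModule L V] [LieModule ℂ L V] [FiniteDimensional ℂ V] {S : Finset ι}
    {φ : L →ₗ[ℂ] (ι → M2)} (f : ℕ → LieSubmodule ℂ L V), f 0 = ⊥ → f k = ⊤ → Monotone f →
    Cap L V S φ → S.card ≤ ∑ j ∈ Finset.range k,
      (finrank ℂ (f (j + 1)) - finrank ℂ (f j)) / 2 := by
  classical
  induction k with
  | zero =>
    intro L V ι _ _ _ _ _ _ _ S φ f h0 hk hf c
    have h1 : (⊥ : LieSubmodule ℂ L V) = ⊤ := h0.symm.trans hk
    have hV : Subsingleton V := by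
      refine ⟨fun v w => ?_⟩
      have hv : v ∈ (⊥ : LieSubmodule ℂ L V) := by rw [h1]; exact LieSubmodule.mem_top v
      have hw : w ∈ (⊥ : LieSubmodule ℂ L V) := by rw [h1]; exact LieSubmodule.mem_top w
      rw [LieSubmodule.mem_bot] at hv hw
      rw [hv, hw]
    have h2 := bound (finrank ℂ V) le_rfl c
    rw [finrank_zero_iff.2 hV] at h2
    simp only [Finset.range_zero, Finset.sum_empty]
    omega
  | succ k ih =>
    intro L V ι _ _ _ _ _ _ _ S φ f h0 hk hf c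
    obtain ⟨S₁, hS₁, c1, c2⟩ := c.split (f k)
    have h5 := bound (finrank ℂ (V ⧸ f k)) le_rfl c2
    have h6 := Finset.card_sdiff_add_card_eq_card hS₁
    have h7 := finrank_quot (f k)
    have h8 : finrank ℂ (f (k + 1)) = finrank ℂ V := by
      rw [hk]
      exact finrank_top ℂ V
    let f' : ℕ → LieSubmodule ℂ L (f k) := fun j => (f j).comap (f k).incl
    have hf' : ∀ j v, v ∈ f' j ↔ (v : V) ∈ f j := fun j v => Iff.rfl
    have h9 : ∀ j ≤ k, finrank ℂ (f' j) = finrank ℂ (f j) := by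
      intro j hj
      have e : (f' j) ≃ₗ[ℂ] (f j) :=
        { toFun := fun v => ⟨v.1.1, v.2⟩
          invFun := fun v => ⟨⟨v.1, hf hj v.2⟩, v.2⟩
          left_inv := fun v => rfl
          right_inv := fun v => rfl
          map_add' := fun v w => rfl
          map_smul' := fun a v => rfl }
      exact e.finrank_eq
    have h10 := ih f' (by
        rw [LieSubmodule.eq_bot_iff]
        intro v hv
        rw [hf', h0, LieSubmodule.mem_bot] at hv
        exact Subtype.ext hv) (by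
        rw [eq_top_iff]
        intro v _
        exact v.2) (fun i j hij v hv => hf hij hv) c1
    have h11 : ∑ j ∈ Finset.range k, (finrank ℂ (f' (j + 1)) - finrank ℂ (f' j)) / 2 =
        ∑ j ∈ Finset.range k, (finrank ℂ (f (j + 1)) - finrank ℂ (f j)) / 2 := by
      refine Finset.sum_congr rfl fun j hj => ?_
      have := Finset.mem_range.1 hj
      rw [h9 _ (by omega), h9 _ (by omega)]
    rw [Finset.sum_range_succ]
    omega

end Pool.Agent.H621.BC
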