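import Pool.Agent.H621.BC.Bd

set_option autoImplicit false
set_option linter.unusedSectionVars false

/-!
# Lie algebras of pairs: a matrix and a family of two by two matrices
-/

open Module Finset LieModule Matrix

noncomputable section

namespace Pool.Agent.H621.BC

open Pool.Agent.R917.GL (M2 tz lb E F Hh tz_E tz_F tz_H E_ne exists_lb ideal_top lb_EF lb_HE lb_HF
  lb_anti H_ne Gd)

attribute [local instance 100] LieRing.ofAssociativeRing

/-- the pairs of a matrix and a family of two by two matrices -/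
abbrev Rr (r : ℕ) (ι : Type) : Type := Matrix (Fin r) (Fin r) ℂ × (ι → M2)

variable {r : ℕ} {ι : Type}

/-- The Lie algebra of a subspace which is closed under brackets. -/
def lieOf (𝔏 : Submodule ℂ (Rr r ι)) (hbr : ∀ x ∈ 𝔏, ∀ y ∈ 𝔏, x * y - y * x ∈ 𝔏) :
    LieSubalgebra ℂ (Rr r ι) :=
  { 𝔏 with lie_mem' := fun {x y} hx hy => hbr x hx y hy }

/-- The action on the vectors, by the negative transposed matrix. -/
def actR : Rr r ι →ₗ⁅ℂ⁆ Module.End ℂ (Fin r → ℂ) where
  toFun x := -Matrix.toLin' (x.1)ᵀ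
  map_add' x y := by
    rw [Prod.fst_add, Matrix.transpose_add, map_add, neg_add]
  map_smul' a x := by
    rw [Prod.smul_fst, Matrix.transpose_smul, map_smul, smul_neg, RingHom.id_apply]
  map_lie' {x y} := by
    rw [LieRing.of_associative_ring_bracket, LieRing.of_associative_ring_bracket, Prod.fst_sub,
      Prod.fst_mul, Prod.fst_mul, Matrix.transpose_sub, Matrix.transpose_mul,
      Matrix.transpose_mul, map_sub, Matrix.toLin'_mul, Matrix.toLin'_mul]
    refine LinearMap.ext fun v => ?_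
    simp only [LinearMap.neg_apply, LinearMap.sub_apply, LinearMap.comp_apply,
      Module.End.mul_apply, map_neg, neg_neg, neg_sub]

theorem actR_apply (x : Rr r ι) (v : Fin r → ℂ) : actR x v = -((x.1)ᵀ *ᵥ v) := by
  change (-Matrix.toLin' (x.1)ᵀ) v = _
  rw [LinearMap.neg_apply, Matrix.toLin'_apply]

/-- the number of the indices of level `l` -/
def cnt {K : ℕ} (lev : Fin r → Fin K) (l : ℕ) : ℕ := (Finset.univ.filter fun i => (lev i : ℕ) = l).card

/-- the coordinate subspace -/
def fsub (s : Finset (Fin r)) : Submodule ℂ (Fin r → ℂ) where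
  carrier := {v | ∀ i, i ∉ s → v i = 0}
  zero_mem' := fun _ _ => rfl
  add_mem' := fun {v w} hv hw i hi => by rw [Pi.add_apply, hv i hi, hw i hi, add_zero]
  smul_mem' := fun a v hv i hi => by rw [Pi.smul_apply, hv i hi, smul_zero]

theorem finrank_fsub (s : Finset (Fin r)) : finrank ℂ (fsub s) = s.card := by
  classical
  have e : (fsub s) ≃ₗ[ℂ] ({i // i ∈ s} → ℂ) :=
    { toFun := fun v i => v.1 i.1
      invFun := fun w => ⟨fun i => if h : i ∈ s then w ⟨i, h⟩ else 0, fun i hi => by
        simp [hi]⟩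
      left_inv := fun v => by
        apply Subtype.ext
        funext i
        by_cases h : i ∈ s
        · simp [h]
        · simp [h, v.2 i h]
      right_inv := fun w => by
        funext i
        simp [i.2]
      map_add' := fun v w => rfl
      map_smul' := fun a v => rfl }
  rw [e.finrank_eq, Module.finrank_fintype_fun_eq_card, Fintype.card_coe]

/-- **The bound.** -/
theorem bound_Rr {κ : Type} [Fintype κ] {K : ℕ} (lev : Fin r → Fin K) {𝔏 : Submodule ℂ (Rr r ι)}
    (hbr : ∀ x ∈ 𝔏, ∀ y ∈ 𝔏, x * y - y * x ∈ 𝔏)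
    (hlev : ∀ x ∈ 𝔏, ∀ i j, lev i < lev j → x.1 i j = 0) (c : κ → ι)
    (htr : ∀ x ∈ 𝔏, ∀ k, tz (x.2 (c k)))
    (hsu : ∀ k, ∀ a, tz a → ∃ x ∈ 𝔏, x.2 (c k) = a ∧ ∀ l, l ≠ k → x.2 (c l) = 0)
    (hke : ∀ x ∈ 𝔏, x.1 = 0 → ∀ k, x.2 (c k) = 0) :
    Fintype.card κ ≤ ∑ l ∈ Finset.range K, cnt lev l / 2 := by
  classical
  let L := lieOf 𝔏 hbr
  have hL : ∀ x, x ∈ L ↔ x ∈ 𝔏 := fun x => Iff.rfl
  let ρ : L →ₗ⁅ℂ⁆ Module.End ℂ (Fin r → ℂ) := actR.comp L.incl
  letI : LieRingModule L (Fin r → ℂ) := LieRingModule.compLieHom (Fin r → ℂ) ρ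
  letI : LieModule ℂ L (Fin r → ℂ) := LieModule.compLieHom (Fin r → ℂ) ρ
  have hact : ∀ (x : L) (v : Fin r → ℂ), ⁅x, v⁆ = -((x.1.1)ᵀ *ᵥ v) := fun x v => actR_apply x.1 v
  let φ : L →ₗ[ℂ] (κ → M2) :=
    { toFun := fun x k => x.1.2 (c k)
      map_add' := fun x y => rfl
      map_smul' := fun a x => rfl }
  have hcap : Cap L (Fin r → ℂ) (Finset.univ : Finset κ) φ := by
    refine ⟨fun x k _ => htr x.1 x.2 k, fun x y k _ => rfl, fun k _ a ha => ?_, fun x hx k _ => ?_⟩
    · obtain ⟨x, hx, h1, h2⟩ := hsu k a ha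
      exact ⟨⟨x, hx⟩, h1, fun l _ hl => h2 l hl⟩
    · refine hke x.1 x.2 ?_ k
      have h1 : (x.1.1)ᵀ = 0 := by
        ext i j
        have h2 := congrFun (hx (Pi.single j 1)) i
        rw [hact, Matrix.mulVec_single_one] at h2
        simpa using h2
      rw [← Matrix.transpose_transpose x.1.1, h1, Matrix.transpose_zero]
  let s : ℕ → Finset (Fin r) := fun j => Finset.univ.filter fun i => (lev i : ℕ) < j
  have hs : ∀ j i, i ∈ s j ↔ (lev i : ℕ) < j := fun j i => by simp [s]
  let f : ℕ → LieSubmodule ℂ L (Fin r → ℂ) := fun j =>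
    { fsub (s j) with
      lie_mem := by
        intro x v hv i hi
        rw [hact, Pi.neg_apply, neg_eq_zero]
        rw [Matrix.mulVec, dotProduct]
        refine Finset.sum_eq_zero fun l _ => ?_
        rw [Matrix.transpose_apply]
        by_cases hl : l ∈ s j
        · rw [hs] at hi hl
          rw [hlev x.1 x.2 l i (by
            rw [Fin.lt_def]
            omega), zero_mul]
        · rw [hv l hl, mul_zero] }
  have hf : ∀ j v, v ∈ f j ↔ ∀ i, i ∉ s j → v i = 0 := fun j v => Iff.rfl
  have hfr : ∀ j, finrank ℂ (f j) = (s j).card := fun j => finrank_fsub (s j)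
  have h1 := bound_filt K f (by
      rw [LieSubmodule.eq_bot_iff]
      intro v hv
      funext i
      exact (hf 0 v).1 hv i (by rw [hs]; omega)) (by
      rw [eq_top_iff]
      intro v _
      rw [hf]
      intro i hi
      exact absurd ((hs K i).2 (lev i).2) hi) (by
      intro i j hij v hv
      rw [hf] at hv ⊢
      intro l hl
      refine hv l fun h => hl ?_
      rw [hs] at h ⊢
      omega) hcap
  rw [Finset.card_univ] at h1
  refine h1.trans (le_of_eq ?_)
  refine Finset.sum_congr rfl fun j _ => ?_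
  rw [hfr, hfr]
  congr 1
  have h2 : s (j + 1) = s j ∪ Finset.univ.filter fun i => (lev i : ℕ) = j := by
    ext i
    rw [Finset.mem_union, hs, hs, Finset.mem_filter]
    simp only [Finset.mem_univ, true_and]
    omega
  have h3 : Disjoint (s j) (Finset.univ.filter fun i => (lev i : ℕ) = j) := by
    rw [Finset.disjoint_left]
    intro i hi hi2
    rw [hs] at hi
    rw [Finset.mem_filter] at hi2
    omega
  rw [h2, Finset.card_union_of_disjoint h3, Nat.add_sub_cancel_left]
  rfl

end Pool.Agent.H621.BC
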