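import Pool.Agent.H621.BC.Fam2

set_option autoImplicit false
set_option linter.unusedSectionVars false

/-!
# Sums of planes in terms of matrices
-/

open Module TensorProduct Matrix

noncomputable section

namespace Pool.Agent.H621.BC

open Pool.Agent.Y102 Pool.Agent.W516.DR Pool.Agent.H204R3.GP Pool.Agent.W516.KC
  Pool.Agent.H204R3.SP Pool.Agent.R917 Pool.Agent.R917.GL

variable {h h' : ℕ}

/-- A decomposition of the homology into planes, in terms of matrices. -/
structure DecH (A : AbVar h) (P : Fin h → Matrix (Fin (2 * h)) (Fin (2 * h)) ℂ) : Prop where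
  mem : ∀ i, matE (2 * h) (P i) ∈ cx A.EA
  idem : ∀ i, P i * P i = P i
  sum : ∑ i, P i = 1
  tr : ∀ i, (P i).trace = 2
  sc : ∀ i, ∀ T ∈ A.EA, ∃ z : ℂ, P i * toC T * P i = z • P i
  ty : ∀ i, (∃ E : Module.End ℚ A.H1, P i = toC E) ∨ (P i)ᵀ * omM A = omM A * P i

namespace DecH

variable {A : AbVar h} {P : Fin h → Matrix (Fin (2 * h)) (Fin (2 * h)) ℂ} (hP : DecH A P)

include hP

theorem idem' (k : Fin h) : matE (2 * h) (P k) * matE (2 * h) (P k) = matE (2 * h) (P k) := by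
  rw [← map_mul, hP.idem]

theorem tr' (k : Fin h) : LinearMap.trace ℂ (ℂ ⊗[ℚ] A.H1) (matE (2 * h) (P k)) = 2 := by
  rw [trace_matE, hP.tr]

theorem exb (k : Fin h) : ∃ (b : (Fin 2 → ℂ) →ₗ[ℂ] (ℂ ⊗[ℚ] A.H1))
    (p : (ℂ ⊗[ℚ] A.H1) →ₗ[ℂ] (Fin 2 → ℂ)), (∀ v, p (b v) = v) ∧
      b ∘ₗ p = (matE (2 * h) (P k) : EC A) :=
  exists_bpF (hP.idem' k) (EC.finrank_of_trace (hP.idem' k) (hP.tr' k))

/-- the inclusion of the plane -/
def b (k : Fin h) : (Fin 2 → ℂ) →ₗ[ℂ] (ℂ ⊗[ℚ] A.H1) := (hP.exb k).choose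

/-- the projection to the plane -/
def p (k : Fin h) : (ℂ ⊗[ℚ] A.H1) →ₗ[ℂ] (Fin 2 → ℂ) := (hP.exb k).choose_spec.choose

theorem pb (k : Fin h) : ∀ v, hP.p k (hP.b k v) = v := (hP.exb k).choose_spec.choose_spec.1

theorem bp (k : Fin h) : hP.b k ∘ₗ hP.p k = (matE (2 * h) (P k) : EC A) :=
  (hP.exb k).choose_spec.choose_spec.2

theorem bp1 (k : Fin h) (w : ℂ ⊗[ℚ] A.H1) : hP.b k (hP.p k w) = (matE (2 * h) (P k) : EC A) w :=
  congrArg (fun T : (ℂ ⊗[ℚ] A.H1) →ₗ[ℂ] (ℂ ⊗[ℚ] A.H1) => T w) (hP.bp k)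

theorem Pb (k : Fin h) (v : Fin 2 → ℂ) : (matE (2 * h) (P k) : EC A) (hP.b k v) = hP.b k v := by
  rw [← hP.bp1, hP.pb]

/-- the planes -/
def toCP : CP A (Fin h) where
  b := hP.b
  p := hP.p
  pb := hP.pb
  mem := fun k => by
    rw [hP.bp]
    exact hP.mem k
  N := Set.univ
  sc := by
    intro k _ T hT
    obtain ⟨z, hz⟩ := hP.sc k T hT
    have hz' : matE (2 * h) (P k) * T.baseChange ℂ * matE (2 * h) (P k) =
        z • matE (2 * h) (P k) := by
      rw [← matE_toC, ← map_mul, ← map_mul, hz, map_smul]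
    refine ⟨z, fun v => ?_⟩
    have h1 := congrArg (fun Z : EC A => hP.p k (Z (hP.b k v))) hz'
    simp only [Module.End.mul_apply, LinearMap.smul_apply, map_smul] at h1
    rw [hP.Pb, hP.pb] at h1
    rw [← hP.bp1, hP.pb] at h1
    exact h1
  tzN := by
    intro k _ X hX
    apply tz_of_trace
    rw [EC.trace_toMatrix, hP.bp]
    rcases hP.ty k with ⟨E, hE⟩ | hs
    · have e1 : matE (2 * h) (P k) = E.baseChange ℂ := by rw [hE, matE_toC]
      have r1 : E ∈ A.EA := mem_of_bc (e1 ▸ hP.mem k)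
      have r2 : E * E = E := by
        have h1 := hP.idem' k
        rw [e1, ← bc_mul] at h1
        rw [← sub_eq_zero]
        apply bc_zero_iff
        rw [LinearMap.baseChange_sub, h1, sub_self]
      have r3 : finrank ℚ (LinearMap.range E) = 2 := by
        refine EC.finrank_of_trace r2 ?_
        have h1 := hP.tr' k
        rw [e1, LinearMap.trace_baseChange] at h1
        have h2 : ((LinearMap.trace ℚ A.H1 E : ℚ) : ℂ) = ((2 : ℚ) : ℂ) := by
          rw [Rat.cast_ofNat]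
          exact h1
        exact_mod_cast h2
      rw [e1, ← bc_mul, LinearMap.trace_baseChange, EC.trace_rat r1 r2 r3 hX, map_zero]
    · have hc : toC X * P k = P k * toC X := by
        have h3 := CC_of_cx (bc_mem hX) _ (hP.mem k)
        rw [← matE_toC, ← map_mul, ← map_mul] at h3
        exact (matE (2 * h)).injective h3
      rw [← matE_toC, ← map_mul, trace_matE]
      exact trace_sym hs hX hc
  com := fun k hk => absurd (Set.mem_univ k) hk

/-- the data -/
def toPT : PT A where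
  S := hP.toCP
  N := fun k => Set.mem_univ k
  sum := by
    have h1 : ∀ k, hP.toCP.pr k = matE (2 * h) (P k) := fun k => hP.bp k
    simp only [h1]
    rw [← map_sum, hP.sum, map_one]
  C := (hP.toCP.exists_Reps (fun _ => 0)).some

theorem pr_eq (k : Fin h) : hP.toPT.S.pr k = (matE (2 * h) (P k) : EC A) := hP.bp k

end DecH

/-- the complex matrix of a linear map between the homology groups -/
def mH (f : (Fin (2 * h) → ℚ) →ₗ[ℚ] (Fin (2 * h') → ℚ)) :
    Matrix (Fin (2 * h')) (Fin (2 * h)) ℂ := (LinearMap.toMatrix' f).map (algebraMap ℚ ℂ)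

theorem comp_zero (f : (Fin (2 * h) → ℚ) →ₗ[ℚ] (Fin (2 * h') → ℚ))
    (M : Matrix (Fin (2 * h)) (Fin (2 * h)) ℂ) (hM : mH f * M = 0) :
    f.baseChange ℂ ∘ₗ (matE (2 * h) M) = 0 := by
  let B := Algebra.TensorProduct.basis ℂ (Pi.basisFun ℚ (Fin (2 * h)))
  let B' := Algebra.TensorProduct.basis ℂ (Pi.basisFun ℚ (Fin (2 * h')))
  apply (LinearMap.toMatrix B B').injective
  rw [LinearMap.toMatrix_comp B B B', map_zero]
  have h1 : LinearMap.toMatrix B B' (f.baseChange ℂ) = mH f := by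
    have h2 := LinearMap.toMatrix_baseChange (A := ℂ) f (Pi.basisFun ℚ (Fin (2 * h)))
      (Pi.basisFun ℚ (Fin (2 * h')))
    exact h2
  have h2 : LinearMap.toMatrix B B (matE (2 * h) M) = M := by
    unfold matE
    exact (LinearMap.toMatrixAlgEquiv B).apply_symm_apply M
  rw [h1, h2, hM]

/-- A plane, in terms of matrices. -/
structure PlM : Type where
  h : ℕ
  A : AbVar h
  P : Fin h → Matrix (Fin (2 * h)) (Fin (2 * h)) ℂ
  dec : DecH A P
  i : Fin h

end Pool.Agent.H621.BC
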