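import Pool.Agent.H621.BC.Hom

set_option autoImplicit false
set_option linter.unusedSectionVars false

/-!
# The Lie algebra of the logarithmic derivatives of the periods of a sum
-/

open Module TensorProduct Matrix

noncomputable section

namespace Pool.Agent.H621.BC

open Pool.Agent.Y102 Pool.Agent.W516.DR Pool.Agent.H204R3.GP Pool.Agent.W516.KC
  Pool.Agent.H204R3.SP Pool.Agent.R917

variable {r : ℕ} {κ : Type} {g : κ → ℕ} {h : ℕ}

/-- the pairs of a matrix and an endomorphism of the homology -/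
abbrev Al1 (r h : ℕ) : Type := Matrix (Fin r) (Fin r) ℚ × Module.End ℚ (Fin (2 * h) → ℚ)

/-- the pairs of a matrix and a family of endomorphisms -/
abbrev Alf (r : ℕ) (g : κ → ℕ) : Type :=
  Matrix (Fin r) (Fin r) ℚ × (∀ k, Module.End ℚ (Fin (2 * g k) → ℚ))

/-- the rational components of the logarithmic derivative of the matrix `C` with the inverse `C'` -/
def ld (C C' : Matrix (Fin r) (Fin r) ℂ) (D : Derivation QBar ℂ ℂ) (lam : ℂ →ₗ[ℚ] ℚ) :
    Matrix (Fin r) (Fin r) ℚ := ((C.map D * C').map lam)ᵀ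

/-- the generators -/
def g1 (C C' : Matrix (Fin r) (Fin r) ℂ) (A : AbVar h) (D : Derivation QBar ℂ ℂ)
    (lam : ℂ →ₗ[ℚ] ℚ) : Al1 r h := (ld C C' D lam, cmpE lam (XX A.basis D))

/-- the generators, for a family -/
def gf (C C' : Matrix (Fin r) (Fin r) ℂ) (X : ∀ k, AbVar (g k)) (D : Derivation QBar ℂ ℂ)
    (lam : ℂ →ₗ[ℚ] ℚ) : Alf r g := (ld C C' D lam, fun k => cmpE lam (XX (X k).basis D))

/-- The Lie algebra -/
def L1 (C C' : Matrix (Fin r) (Fin r) ℂ) (A : AbVar h) : Submodule ℚ (Al1 r h) :=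
  sInf {W | (∀ D lam, g1 C C' A D lam ∈ W) ∧ ∀ x ∈ W, ∀ y ∈ W, x * y - y * x ∈ W}

/-- The Lie algebra, for a family -/
def Lf (C C' : Matrix (Fin r) (Fin r) ℂ) (X : ∀ k, AbVar (g k)) : Submodule ℚ (Alf r g) :=
  sInf {W | (∀ D lam, gf C C' X D lam ∈ W) ∧ ∀ x ∈ W, ∀ y ∈ W, x * y - y * x ∈ W}

variable {C C' : Matrix (Fin r) (Fin r) ℂ} {A : AbVar h} {X : ∀ k, AbVar (g k)}

theorem g1_mem (D : Derivation QBar ℂ ℂ) (lam : ℂ →ₗ[ℚ] ℚ) : g1 C C' A D lam ∈ L1 C C' A := by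
  unfold L1
  rw [Submodule.mem_sInf]
  exact fun W hW => hW.1 D lam

theorem L1_br {x y : Al1 r h} (hx : x ∈ L1 C C' A) (hy : y ∈ L1 C C' A) :
    x * y - y * x ∈ L1 C C' A := by
  unfold L1 at hx hy ⊢
  rw [Submodule.mem_sInf] at hx hy ⊢
  exact fun W hW => hW.2 x (hx W hW) y (hy W hW)

theorem L1_le {W : Submodule ℚ (Al1 r h)} (h1 : ∀ D lam, g1 C C' A D lam ∈ W)
    (h2 : ∀ x ∈ W, ∀ y ∈ W, x * y - y * x ∈ W) : L1 C C' A ≤ W := sInf_le ⟨h1, h2⟩

theorem gf_mem (D : Derivation QBar ℂ ℂ) (lam : ℂ →ₗ[ℚ] ℚ) : gf C C' X D lam ∈ Lf C C' X := by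
  unfold Lf
  rw [Submodule.mem_sInf]
  exact fun W hW => hW.1 D lam

theorem Lf_br {x y : Alf r g} (hx : x ∈ Lf C C' X) (hy : y ∈ Lf C C' X) :
    x * y - y * x ∈ Lf C C' X := by
  unfold Lf at hx hy ⊢
  rw [Submodule.mem_sInf] at hx hy ⊢
  exact fun W hW => hW.2 x (hx W hW) y (hy W hW)

theorem Lf_le {W : Submodule ℚ (Alf r g)} (h1 : ∀ D lam, gf C C' X D lam ∈ W)
    (h2 : ∀ x ∈ W, ∀ y ∈ W, x * y - y * x ∈ W) : Lf C C' X ≤ W := sInf_le ⟨h1, h2⟩

/-- the projection -/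
def prj (k : κ) : Alf r g →ₗ[ℚ] Al1 r (g k) where
  toFun z := (z.1, z.2 k)
  map_add' _ _ := rfl
  map_smul' _ _ := rfl

theorem prj_mem {z : Alf r g} (hz : z ∈ Lf C C' X) (k : κ) : (z.1, z.2 k) ∈ L1 C C' (X k) := by
  have h1 : Lf C C' X ≤ (L1 C C' (X k)).comap (prj k) := by
    refine Lf_le (fun D lam => ?_) fun x hx y hy => ?_
    · exact g1_mem (A := X k) D lam
    · exact L1_br (A := X k) hx hy
  exact h1 hz

/-- the elements of weight zero, up to a scalar -/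
def q1 (C C' : Matrix (Fin r) (Fin r) ℂ) (A : AbVar h) : Submodule ℚ (Al1 r h) where
  carrier := {z | z.2 ∈ A.NA ∧ ∃ a : ℚ, (z.1, z.2 + a • (1 : Module.End ℚ A.H1)) ∈ L1 C C' A}
  zero_mem' := ⟨A.NA.zero_mem, 0, by
    rw [zero_smul, add_zero]
    exact (L1 C C' A).zero_mem⟩
  add_mem' := by
    rintro x y ⟨hx, a, ha⟩ ⟨hy, b, hb⟩
    refine ⟨A.NA.add_mem hx hy, a + b, ?_⟩
    have h1 := (L1 C C' A).add_mem ha hb
    convert h1 using 1
    refine Prod.ext rfl ?_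
    change x.2 + y.2 + (a + b) • (1 : Module.End ℚ A.H1) = x.2 + a • 1 + (y.2 + b • 1)
    rw [add_smul]
    abel
  smul_mem' := by
    rintro t x ⟨hx, a, ha⟩
    refine ⟨A.NA.smul_mem t hx, t * a, ?_⟩
    have h1 := (L1 C C' A).smul_mem t ha
    convert h1 using 1
    refine Prod.ext rfl ?_
    change t • x.2 + (t * a) • (1 : Module.End ℚ A.H1) = t • (x.2 + a • 1)
    rw [smul_add, mul_smul]

/-- the elements of weight zero, up to a scalar, for a family -/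
def qf (C C' : Matrix (Fin r) (Fin r) ℂ) (X : ∀ k, AbVar (g k)) : Submodule ℚ (Alf r g) where
  carrier := {z | (∀ k, z.2 k ∈ (X k).NA) ∧
    ∃ a : ℚ, (z.1, fun k => z.2 k + a • (1 : Module.End ℚ (X k).H1)) ∈ Lf C C' X}
  zero_mem' := ⟨fun k => (X k).NA.zero_mem, 0, by
    have h1 := (Lf C C' X).zero_mem
    convert h1 using 1
    refine Prod.ext rfl ?_
    funext k
    change (0 : Module.End ℚ (X k).H1) + (0 : ℚ) • (1 : Module.End ℚ (X k).H1) = 0
    rw [zero_smul, add_zero]⟩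
  add_mem' := by
    rintro x y ⟨hx, a, ha⟩ ⟨hy, b, hb⟩
    refine ⟨fun k => (X k).NA.add_mem (hx k) (hy k), a + b, ?_⟩
    have h1 := (Lf C C' X).add_mem ha hb
    convert h1 using 1
    refine Prod.ext rfl ?_
    funext k
    change x.2 k + y.2 k + (a + b) • (1 : Module.End ℚ (X k).H1) =
      x.2 k + a • 1 + (y.2 k + b • 1)
    rw [add_smul]
    abel
  smul_mem' := by
    rintro t x ⟨hx, a, ha⟩
    refine ⟨fun k => (X k).NA.smul_mem t (hx k), t * a, ?_⟩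
    have h1 := (Lf C C' X).smul_mem t ha
    convert h1 using 1
    refine Prod.ext rfl ?_
    funext k
    change t • x.2 k + (t * a) • (1 : Module.End ℚ (X k).H1) = t • (x.2 k + a • 1)
    rw [smul_add, mul_smul]

theorem prj_qf {z : Alf r g} (hz : z ∈ qf C C' X) (k : κ) : (z.1, z.2 k) ∈ q1 C C' (X k) := by
  obtain ⟨h1, a, ha⟩ := hz
  exact ⟨h1 k, a, prj_mem ha k⟩

theorem q1_br_L {x y : Al1 r h} (hx : x ∈ q1 C C' A) (hy : y ∈ q1 C C' A) :
    x * y - y * x ∈ L1 C C' A := by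
  obtain ⟨_, a, ha⟩ := hx
  obtain ⟨_, b, hb⟩ := hy
  have h1 := L1_br ha hb
  convert h1 using 1
  refine Prod.ext rfl ?_
  exact (br_scalar x.2 y.2 a b).symm

theorem q1_br {x y : Al1 r h} (hx : x ∈ q1 C C' A) (hy : y ∈ q1 C C' A) :
    x * y - y * x ∈ q1 C C' A := by
  refine ⟨A.NA_bracket hx.1 hy.1, 0, ?_⟩
  have h1 := q1_br_L hx hy
  convert h1 using 1
  refine Prod.ext rfl ?_
  change _ + (0 : ℚ) • _ = _
  rw [zero_smul, add_zero]

theorem qf_br_L {x y : Alf r g} (hx : x ∈ qf C C' X) (hy : y ∈ qf C C' X) :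
    x * y - y * x ∈ Lf C C' X := by
  obtain ⟨_, a, ha⟩ := hx
  obtain ⟨_, b, hb⟩ := hy
  have h1 := Lf_br ha hb
  convert h1 using 1
  refine Prod.ext rfl ?_
  funext k
  exact (br_scalar (x.2 k) (y.2 k) a b).symm

theorem qf_br {x y : Alf r g} (hx : x ∈ qf C C' X) (hy : y ∈ qf C C' X) :
    x * y - y * x ∈ qf C C' X := by
  refine ⟨fun k => (X k).NA_bracket (hx.1 k) (hy.1 k), 0, ?_⟩
  have h1 := qf_br_L hx hy
  convert h1 using 1
  refine Prod.ext rfl ?_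
  funext k
  change _ + (0 : ℚ) • _ = _
  rw [zero_smul, add_zero]

theorem X0_q1 (D : Derivation QBar ℂ ℂ) (lam : ℂ →ₗ[ℚ] ℚ) :
    (ld C C' D lam, X0 A.basis tau D lam) ∈ q1 C C' A := by
  refine ⟨A.LA_le_NA ?_, lam (D tau / (2 * tau)), ?_⟩
  · rw [AbVar.LA_eq]
    exact X0_mem A.basis AbVar.tau_ne D lam
  · have h1 := g1_mem (C := C) (C' := C') (A := A) D lam
    unfold g1 at h1
    rw [← X0_eq D lam] at h1
    exact h1

theorem X0_qf (D : Derivation QBar ℂ ℂ) (lam : ℂ →ₗ[ℚ] ℚ) :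
    (ld C C' D lam, fun k => X0 (X k).basis tau D lam) ∈ qf C C' X := by
  refine ⟨fun k => (X k).LA_le_NA ?_, lam (D tau / (2 * tau)), ?_⟩
  · rw [AbVar.LA_eq]
    exact X0_mem (X k).basis AbVar.tau_ne D lam
  · have h1 := gf_mem (C := C) (C' := C') (X := X) D lam
    unfold gf at h1
    simp only [← X0_eq] at h1
    exact h1

/-- the second component -/
def snd1 : Al1 r h →ₗ[ℚ] Module.End ℚ (Fin (2 * h) → ℚ) := LinearMap.snd ℚ _ _

/-- one of the components -/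
def sndf (k : κ) : Alf r g →ₗ[ℚ] Module.End ℚ (Fin (2 * g k) → ℚ) where
  toFun z := z.2 k
  map_add' _ _ := rfl
  map_smul' _ _ := rfl

theorem full_q1 : A.Full ((q1 C C' A).map snd1) := by
  refine full_of_X0 A ?_ ?_ fun D lam => ⟨_, X0_q1 (C := C) (C' := C') D lam, rfl⟩
  · rintro _ ⟨z, hz, rfl⟩
    exact hz.1
  · rintro _ ⟨x, hx, rfl⟩ _ ⟨y, hy, rfl⟩
    exact ⟨_, q1_br hx hy, rfl⟩

theorem full_qf (k : κ) : (X k).Full ((qf C C' X).map (sndf k)) := by
  refine full_of_X0 (X k) ?_ ?_ fun D lam => ⟨_, X0_qf (C := C) (C' := C') D lam, rfl⟩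
  · rintro _ ⟨z, hz, rfl⟩
    exact hz.1 k
  · rintro _ ⟨x, hx, rfl⟩ _ ⟨y, hy, rfl⟩
    exact ⟨_, qf_br hx hy, rfl⟩

/-! ### Levels -/

/-- the matrix is zero below the blocks -/
def BT {K : ℕ} {R : Type} [Zero R] (lev : Fin r → Fin K) (M : Matrix (Fin r) (Fin r) R) : Prop :=
  ∀ i j, lev j < lev i → M i j = 0

theorem BT.mul {K : ℕ} {R : Type} [Ring R] {lev : Fin r → Fin K} {M N : Matrix (Fin r) (Fin r) R}
    (hM : BT lev M) (hN : BT lev N) : BT lev (M * N) := by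
  intro i j hij
  rw [Matrix.mul_apply]
  refine Finset.sum_eq_zero fun k _ => ?_
  by_cases h : lev k < lev i
  · rw [hM i k h, zero_mul]
  · rw [hN k j (lt_of_lt_of_le hij (not_lt.1 h)), mul_zero]

theorem BT_ld {K : ℕ} {lev : Fin r → Fin K} (hC : BT lev C) (hC' : BT lev C')
    (D : Derivation QBar ℂ ℂ) (lam : ℂ →ₗ[ℚ] ℚ) (i j : Fin r) (hij : lev i < lev j) :
    ld C C' D lam i j = 0 := by
  unfold ld
  rw [Matrix.transpose_apply, Matrix.map_apply]
  have h1 : BT lev (C.map D) := fun i j hij => by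
    rw [Matrix.map_apply, hC i j hij, map_zero]
  rw [(h1.mul hC') j i hij, map_zero]

theorem lev_Lf {K : ℕ} {lev : Fin r → Fin K} (hC : BT lev C) (hC' : BT lev C') {z : Alf r g}
    (hz : z ∈ Lf C C' X) (i j : Fin r) (hij : lev i < lev j) : z.1 i j = 0 := by
  let W : Submodule ℚ (Alf r g) :=
    { carrier := {z | BT lev (z.1)ᵀ}
      zero_mem' := fun i j _ => rfl
      add_mem' := fun {x y} hx hy i j hij => by
        have e1 := hx i j hij
        have e2 := hy i j hij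
        rw [Matrix.transpose_apply] at e1 e2 ⊢
        rw [Prod.fst_add, Matrix.add_apply, e1, e2, add_zero]
      smul_mem' := fun a x hx i j hij => by
        have e1 := hx i j hij
        rw [Matrix.transpose_apply] at e1 ⊢
        rw [Prod.smul_fst, Matrix.smul_apply, e1, smul_zero] }
  have h1 : Lf C C' X ≤ W := by
    refine Lf_le (fun D lam i j hij => ?_) fun x hx y hy i j hij => ?_
    · rw [Matrix.transpose_apply]
      exact BT_ld hC hC' D lam j i hij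
    · have e1 : BT lev (x.1)ᵀ := hx
      have e2 : BT lev (y.1)ᵀ := hy
      have e3 := (e2.mul e1) i j hij
      have e4 := (e1.mul e2) i j hij
      rw [Prod.fst_sub, Prod.fst_mul, Prod.fst_mul, Matrix.transpose_sub, Matrix.transpose_mul,
        Matrix.transpose_mul, Matrix.sub_apply, e3, e4, sub_zero]
  exact h1 hz j i hij

end Pool.Agent.H621.BC
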