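import Pool.Agent.H621.BC.Cx
import Pool.Agent.H621.BC.Lm

set_option autoImplicit false
set_option linter.unusedSectionVars false

/-!
# Families of abelian varieties without homomorphisms
-/

open Module TensorProduct Matrix

noncomputable section

namespace Pool.Agent.H621.BC

open Pool.Agent.Y102 Pool.Agent.W516.DR Pool.Agent.H204R3.GP Pool.Agent.W516.KC
  Pool.Agent.H204R3.SP Pool.Agent.R917 Pool.Agent.R917.GL

variable {r : ℕ} {κ : Type} {g : κ → ℕ} {h h' : ℕ}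

/-- An abelian variety whose homology is a sum of planes without complex multiplication. -/
structure PT (A : AbVar h) where
  S : CP A (Fin h)
  N : ∀ k, k ∈ S.N
  sum : ∑ k, S.pr k = 1
  C : S.Reps (fun _ => 0)

namespace PT

variable {A : AbVar h} (T : PT A)

theorem rt : T.S.Rt (fun _ => 0) where
  eq k hk := absurd (T.N k) hk
  mem k hk := absurd (T.N k) hk
  idem k hk := absurd (T.N k) hk
  rk k hk := absurd (T.N k) hk
  nsc k hk := absurd (T.N k) hk
  iso i _ hi := absurd (T.N i) hi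

/-- the index set of the representatives -/
abbrev Ic : Type := {c : Fin h // c ∈ T.C.Cn}

theorem inj0 {X : EC A} (hX : CC X) (h1 : ∀ c : T.Ic, T.S.xi X c.1 = 0) : X = 0 :=
  CP.inj T.C T.rt T.sum hX (fun c hc => h1 ⟨c, hc⟩) fun c hc => absurd (T.N c) (T.C.m1 c hc)

end PT

/-! ### Homomorphisms between planes -/

theorem adj_tz {x : M2} (hx : tz x) : Matrix.adjugate x = -x := by
  unfold tz at hx
  rw [Matrix.adjugate_fin_two]
  ext i j
  fin_cases i <;> fin_cases j <;> simp [hx]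

theorem adj_comm {x y P : M2} (hx : tz x) (hy : tz y) (hP : P * x = y * P) :
    Matrix.adjugate P * y = x * Matrix.adjugate P := by
  have h1 := congrArg Matrix.adjugate hP
  rw [Matrix.adjugate_mul_distrib, Matrix.adjugate_mul_distrib, adj_tz hx, adj_tz hy,
    neg_mul, mul_neg, neg_inj] at h1
  exact h1.symm

theorem adj_zero {P : M2} (hP : Matrix.adjugate P = 0) : P = 0 := by
  rw [Matrix.adjugate_fin_two] at hP
  ext i j
  have h00 := congrFun (congrFun hP 0) 0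
  have h01 := congrFun (congrFun hP 0) 1
  have h10 := congrFun (congrFun hP 1) 0
  have h11 := congrFun (congrFun hP 1) 1
  simp at h00 h01 h10 h11
  fin_cases i <;> fin_cases j <;> simp [h00, h01, h10, h11]

/-- **Homomorphisms between planes come from homomorphisms of abelian varieties.** -/
theorem cross {A : AbVar h} {B : AbVar h'} {K K' : Type} (S : CP A K) (S' : CP B K') (c : K)
    (d : K') (P : M2) (hP : ∀ (D : Derivation QBar ℂ ℂ) (lam : ℂ →ₗ[ℚ] ℚ),
      P * S.xi ((X0 A.basis tau D lam).baseChange ℂ) c =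
        S'.xi ((X0 B.basis tau D lam).baseChange ℂ) d * P)
    (hNH : ∀ f, IsHom A B f → f = 0) : P = 0 := by
  let T : (ℂ ⊗[ℚ] A.H1) →ₗ[ℂ] (ℂ ⊗[ℚ] B.H1) := S'.b d ∘ₗ Matrix.toLin' P ∘ₗ S.p c
  have hT : ∀ v, T v = S'.b d (P *ᵥ S.p c v) := fun v => rfl
  have hA : ∀ (D : Derivation QBar ℂ ℂ) (lam : ℂ →ₗ[ℚ] ℚ), CC ((X0 A.basis tau D lam).baseChange ℂ : EC A) := fun D lam =>
    CC_of_cx (bc_mem (A.LA_le_NA (by
      rw [AbVar.LA_eq]
      exact X0_mem A.basis AbVar.tau_ne D lam)))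
  have hB : ∀ (D : Derivation QBar ℂ ℂ) (lam : ℂ →ₗ[ℚ] ℚ), CC ((X0 B.basis tau D lam).baseChange ℂ : EC B) := fun D lam =>
    CC_of_cx (bc_mem (B.LA_le_NA (by
      rw [AbVar.LA_eq]
      exact X0_mem B.basis AbVar.tau_ne D lam)))
  have hcom : ∀ (D : Derivation QBar ℂ ℂ) (lam : ℂ →ₗ[ℚ] ℚ) v,
      T ((X0 A.basis tau D lam).baseChange ℂ v) =
      (X0 B.basis tau D lam).baseChange ℂ (T v) := by
    intro D lam v
    rw [hT, hT, S.p_apply (hA D lam), S'.apply_b (hB D lam), Matrix.mulVec_mulVec,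
      Matrix.mulVec_mulVec, hP]
  have hT0 : ∀ w : A.H1, T ((1 : ℂ) ⊗ₜ[ℚ] w) = 0 := by
    intro w
    apply eq_zero_of_cmp
    intro lam₀
    let f : A.H1 →ₗ[ℚ] B.H1 :=
      cmp lam₀ ∘ₗ (T.restrictScalars ℚ) ∘ₗ (TensorProduct.mk ℚ ℂ A.H1 1)
    have hf : ∀ w, f w = cmp lam₀ (T ((1 : ℂ) ⊗ₜ[ℚ] w)) := fun w => rfl
    have h1 : IsHom A B f := by
      refine isHom_of_comm A B f fun D lam w => ?_
      have h2 : f (X0 A.basis tau D lam w) = X0 B.basis tau D lam (f w) := by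
        rw [hf, hf, ← cmp_baseChange, ← hcom, LinearMap.baseChange_tmul]
      have e1 := congrArg (fun Z : Module.End ℚ A.H1 => Z w) (X0_eq (A := A) D lam)
      have e2 := congrArg (fun Z : Module.End ℚ B.H1 => Z (f w)) (X0_eq (A := B) D lam)
      simp only [LinearMap.add_apply, LinearMap.smul_apply, Module.End.one_apply] at e1 e2
      rw [← e1, ← e2, map_add, map_smul, h2]
    have h3 := hNH f h1
    rw [← hf, h3, LinearMap.zero_apply]
  have hT1 : T = 0 := by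
    refine TensorProduct.AlgebraTensorModule.ext fun a w => ?_
    have h2 : a ⊗ₜ[ℚ] w = a • ((1 : ℂ) ⊗ₜ[ℚ] w) := by rw [smul_tmul', smul_eq_mul, mul_one]
    rw [h2, map_smul, hT0, smul_zero, LinearMap.zero_apply]
  refine mat_ext fun v => ?_
  have h4 := hT (S.b c v)
  rw [hT1, LinearMap.zero_apply, S.pb] at h4
  rw [S'.b_inj h4.symm, Matrix.zero_mulVec]

/-- no homomorphisms in one of the two directions -/
def NH (A : AbVar h) (B : AbVar h') : Prop :=
  (∀ f, IsHom A B f → f = 0) ∨ ∀ f, IsHom B A f → f = 0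

theorem X0_bc_mem (A : AbVar h) (D : Derivation QBar ℂ ℂ) (lam : ℂ →ₗ[ℚ] ℚ) :
    ((X0 A.basis tau D lam).baseChange ℂ : EC A) ∈ cx A.NA :=
  bc_mem (A.LA_le_NA (by
    rw [AbVar.LA_eq]
    exact X0_mem A.basis AbVar.tau_ne D lam))

theorem cross' {A : AbVar h} {B : AbVar h'} (S : PT A) (S' : PT B) (c : Fin h)
    (d : Fin h') (P : M2) (hP : ∀ (D : Derivation QBar ℂ ℂ) (lam : ℂ →ₗ[ℚ] ℚ),
      P * S.S.xi ((X0 A.basis tau D lam).baseChange ℂ) c =
        S'.S.xi ((X0 B.basis tau D lam).baseChange ℂ) d * P)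
    (hNH : NH A B) : P = 0 := by
  rcases hNH with hNH | hNH
  · exact cross S.S S'.S c d P hP hNH
  · refine adj_zero (cross S'.S S.S d c _ (fun D lam => ?_) hNH)
    exact adj_comm (S.S.xi_tz (S.N c) (X0_bc_mem A D lam)) (S'.S.xi_tz (S'.N d) (X0_bc_mem B D lam))
      (hP D lam)

/-! ### The Lie algebras over the complex numbers -/

theorem map_br (x y : Matrix (Fin r) (Fin r) ℚ) : (x * y - y * x).map (algebraMap ℚ ℂ) =
    x.map (algebraMap ℚ ℂ) * y.map (algebraMap ℚ ℂ) -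
      y.map (algebraMap ℚ ℂ) * x.map (algebraMap ℚ ℂ) := by
  have h1 := map_sub (algebraMap ℚ ℂ).mapMatrix (x * y) (y * x)
  rw [map_mul, map_mul] at h1
  exact h1

section single

variable {A : AbVar h} (T : PT A) (C C' : Matrix (Fin r) (Fin r) ℂ)

/-- the matrices -/
def th1 (z : Al1 r h) : Rr r T.Ic :=
  (z.1.map (algebraMap ℚ ℂ), fun i => T.S.xi (z.2.baseChange ℂ) i.1)

/-- the complex Lie algebra -/
def LL1 : Submodule ℂ (Rr r T.Ic) := Submodule.span ℂ (th1 T '' (q1 C C' A : Set (Al1 r h)))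

variable {C C'}

theorem th1_br {x y : Al1 r h} (hx : x.2 ∈ A.NA) (hy : y.2 ∈ A.NA) :
    th1 T (x * y - y * x) = th1 T x * th1 T y - th1 T y * th1 T x := by
  refine Prod.ext ?_ ?_
  · change (x.1 * y.1 - y.1 * x.1).map (algebraMap ℚ ℂ) = x.1.map (algebraMap ℚ ℂ) *
      y.1.map (algebraMap ℚ ℂ) - y.1.map (algebraMap ℚ ℂ) * x.1.map (algebraMap ℚ ℂ)
    exact map_br _ _
  · funext i
    change T.S.xi ((x.2 * y.2 - y.2 * x.2).baseChange ℂ) i.1 = _
    rw [bc_br, T.S.xi_lb (CC_of_cx (bc_mem hx)) (CC_of_cx (bc_mem hy))]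
    rfl

theorem span_br {R : Type} [Ring R] [Algebra ℂ R] {s : Set R}
    (hs : ∀ x ∈ s, ∀ y ∈ s, x * y - y * x ∈ Submodule.span ℂ s) :
    ∀ x ∈ Submodule.span ℂ s, ∀ y ∈ Submodule.span ℂ s, x * y - y * x ∈ Submodule.span ℂ s := by
  intro x hx
  induction hx using Submodule.span_induction with
  | mem X hX =>
    intro Y hY
    induction hY using Submodule.span_induction with
    | mem Y hY => exact hs X hX Y hY
    | zero => rw [mul_zero, zero_mul, sub_zero]; exact Submodule.zero_mem _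
    | add a b _ _ ha hb =>
      have h1 := Submodule.add_mem _ ha hb
      convert h1 using 1
      rw [mul_add, add_mul]
      abel
    | smul c a _ ha =>
      have h1 := Submodule.smul_mem _ c ha
      convert h1 using 1
      rw [mul_smul_comm, smul_mul_assoc, smul_sub]
  | zero => intro Y _; rw [mul_zero, zero_mul, sub_zero]; exact Submodule.zero_mem _
  | add a b _ _ ha hb =>
    intro Y hY
    have h1 := Submodule.add_mem _ (ha Y hY) (hb Y hY)
    convert h1 using 1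
    rw [mul_add, add_mul]
    abel
  | smul c a _ ha =>
    intro Y hY
    have h1 := Submodule.smul_mem _ c (ha Y hY)
    convert h1 using 1
    rw [mul_smul_comm, smul_mul_assoc, smul_sub]

theorem LL1_br : ∀ x ∈ LL1 T C C', ∀ y ∈ LL1 T C C', x * y - y * x ∈ LL1 T C C' := by
  refine span_br ?_
  rintro _ ⟨x, hx, rfl⟩ _ ⟨y, hy, rfl⟩
  rw [← th1_br T hx.1 hy.1]
  exact Submodule.subset_span ⟨_, q1_br hx hy, rfl⟩

end single

section family

variable {X : ∀ k, AbVar (g k)} (T : ∀ k, PT (X k)) (C C' : Matrix (Fin r) (Fin r) ℂ)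

/-- the index set of the representatives -/
abbrev If : Type := Σ k, (T k).Ic

/-- the matrices -/
def thf (z : Alf r g) : Rr r (If T) :=
  (z.1.map (algebraMap ℚ ℂ), fun i => (T i.1).S.xi ((z.2 i.1).baseChange ℂ) i.2.1)

/-- the complex Lie algebra -/
def LLf : Submodule ℂ (Rr r (If T)) := Submodule.span ℂ (thf T '' (qf C C' X : Set (Alf r g)))

variable {C C'}

theorem thf_br {x y : Alf r g} (hx : ∀ k, x.2 k ∈ (X k).NA) (hy : ∀ k, y.2 k ∈ (X k).NA) :
    thf T (x * y - y * x) = thf T x * thf T y - thf T y * thf T x := by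
  refine Prod.ext ?_ ?_
  · change (x.1 * y.1 - y.1 * x.1).map (algebraMap ℚ ℂ) = x.1.map (algebraMap ℚ ℂ) *
      y.1.map (algebraMap ℚ ℂ) - y.1.map (algebraMap ℚ ℂ) * x.1.map (algebraMap ℚ ℂ)
    exact map_br _ _
  · funext i
    change (T i.1).S.xi ((x.2 i.1 * y.2 i.1 - y.2 i.1 * x.2 i.1).baseChange ℂ) i.2.1 = _
    rw [bc_br, (T i.1).S.xi_lb (CC_of_cx (bc_mem (hx i.1))) (CC_of_cx (bc_mem (hy i.1)))]
    rfl

theorem LLf_br : ∀ x ∈ LLf T C C', ∀ y ∈ LLf T C C', x * y - y * x ∈ LLf T C C' := by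
  refine span_br ?_
  rintro _ ⟨x, hx, rfl⟩ _ ⟨y, hy, rfl⟩
  rw [← thf_br T hx.1 hy.1]
  exact Submodule.subset_span ⟨_, qf_br hx hy, rfl⟩

/-- the projection -/
def prC (k : κ) : Rr r (If T) →ₗ[ℂ] Rr r (T k).Ic where
  toFun z := (z.1, fun c => z.2 ⟨k, c⟩)
  map_add' _ _ := rfl
  map_smul' _ _ := rfl

theorem prC_mem {z : Rr r (If T)} (hz : z ∈ LLf T C C') (k : κ) :
    (z.1, fun c => z.2 ⟨k, c⟩) ∈ LL1 (T k) C C' := by
  have h1 : LLf T C C' ≤ (LL1 (T k) C C').comap (prC T k) := by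
    unfold LLf
    rw [Submodule.span_le]
    rintro _ ⟨x, hx, rfl⟩
    exact Submodule.subset_span ⟨_, prj_qf hx k, rfl⟩
  exact h1 hz

theorem LLf_tz {z : Rr r (If T)} (hz : z ∈ LLf T C C') (i : If T) : tz (z.2 i) := by
  unfold LLf at hz
  induction hz using Submodule.span_induction with
  | mem x hx =>
    obtain ⟨y, hy, rfl⟩ := hx
    exact (T i.1).S.xi_tz ((T i.1).N _) (bc_mem (hy.1 i.1))
  | zero =>
    unfold tz
    simp
  | add x y _ _ hx hy =>
    unfold tz at hx hy ⊢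
    rw [Prod.snd_add, Pi.add_apply, Matrix.add_apply, Matrix.add_apply, hx, hy]
    ring
  | smul a x _ hx =>
    unfold tz at hx ⊢
    rw [Prod.smul_snd, Pi.smul_apply, Matrix.smul_apply, Matrix.smul_apply, hx, smul_neg]

/-- Elements with a given component. -/
theorem LLf_lift (k : κ) {Z : EC (X k)} (hZ : Z ∈ cx ((qf C C' X).map (sndf k))) :
    ∃ z ∈ LLf T C C', ∀ c : (T k).Ic, z.2 ⟨k, c⟩ = (T k).S.xi Z c.1 := by
  induction hZ using Submodule.span_induction with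
  | mem Z hZ =>
    obtain ⟨_, ⟨x, hx, rfl⟩, rfl⟩ := hZ
    exact ⟨thf T x, Submodule.subset_span ⟨x, hx, rfl⟩, fun c => rfl⟩
  | zero => exact ⟨0, Submodule.zero_mem _, fun c => by rw [map_zero]; rfl⟩
  | add a b _ _ ha hb =>
    obtain ⟨x, hx, h1⟩ := ha
    obtain ⟨y, hy, h2⟩ := hb
    exact ⟨x + y, Submodule.add_mem _ hx hy, fun c => by
      rw [Prod.snd_add, Pi.add_apply, h1, h2, map_add, Pi.add_apply]⟩
  | smul t a _ ha =>
    obtain ⟨x, hx, h1⟩ := ha
    exact ⟨t • x, Submodule.smul_mem _ _ hx, fun c => by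
      rw [Prod.smul_snd, Pi.smul_apply, h1, map_smul, Pi.smul_apply]⟩

/-- the second projection -/
def sndC : Rr r (If T) →ₗ[ℂ] (If T → M2) := LinearMap.snd ℂ _ _

theorem gdf [Finite κ] (hNH : ∀ k l, k ≠ l → NH (X k) (X l)) :
    Gd ((LLf T C C').map (sndC T)) (Set.univ : Set (If T)) where
  tr := by
    rintro _ ⟨z, hz, rfl⟩ i _
    exact LLf_tz T hz i
  br := by
    rintro _ ⟨x, hx, rfl⟩ _ ⟨y, hy, rfl⟩
    exact ⟨_, LLf_br T x hx y hy, rfl⟩
  su := by
    rintro ⟨k, c⟩ _ x hx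
    obtain ⟨Z, hZ, h1⟩ := (T k).S.su (full_qf (C := C) (C' := C') k) ((T k).N c.1) hx
    obtain ⟨z, hz, h2⟩ := LLf_lift T k hZ
    exact ⟨_, ⟨z, hz, rfl⟩, (h2 c).trans h1⟩
  ho := by
    rintro ⟨k, c⟩ _ ⟨l, d⟩ _ hcd P hP
    by_cases hkl : k = l
    · subst hkl
      have hne : c ≠ d := fun e => hcd (by rw [e])
      refine (CP.gd (T k).C (full_qf (C := C) (C' := C') k)).ho ⟨c.1, Or.inl c.2⟩ ((T k).N _)
        ⟨d.1, Or.inl d.2⟩ ((T k).N _) (fun e => by
          have e2 := congrArg Subtype.val e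
          exact hne (Subtype.ext e2)) P ?_
      rintro _ ⟨Z, hZ, rfl⟩
      obtain ⟨z, hz, h2⟩ := LLf_lift T k hZ
      have h3 := hP _ ⟨z, hz, rfl⟩
      change P * z.2 ⟨k, c⟩ = z.2 ⟨k, d⟩ * P at h3
      rw [h2, h2] at h3
      exact h3
    · refine cross' (T k) (T l) c.1 d.1 P (fun D lam => ?_) (hNH k l hkl)
      have h3 := hP _ ⟨_, Submodule.subset_span ⟨_, X0_qf (C := C) (C' := C') D lam, rfl⟩, rfl⟩
      exact h3
  cm := fun d hd => absurd (Set.mem_univ d) hd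

/-- **The bound for a family.** -/
theorem fam_bound [Fintype κ] {K : ℕ} {lev : Fin r → Fin K} (hC : BT lev C) (hC' : BT lev C')
    (hNH : ∀ k l, k ≠ l → NH (X k) (X l))
    (hcap : ∀ k, ∃ c : (T k).Ic, ∀ z ∈ LL1 (T k) C C', z.1 = 0 → z.2 c = 0) :
    Fintype.card κ ≤ ∑ l ∈ Finset.range K, cnt lev l / 2 := by
  classical
  choose c hc using hcap
  have hG := gdf T (C := C) (C' := C') hNH
  refine bound_Rr lev (LLf_br T (C := C) (C' := C')) ?_ (fun k => ⟨k, c k⟩)
    (fun x hx k => LLf_tz T hx _) ?_ ?_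
  · intro x hx i j hij
    unfold LLf at hx
    induction hx using Submodule.span_induction with
    | mem x hx =>
      obtain ⟨y, ⟨_, a, hy⟩, rfl⟩ := hx
      change algebraMap ℚ ℂ (y.1 i j) = 0
      rw [lev_Lf hC hC' hy i j hij, map_zero]
    | zero => rfl
    | add x y _ _ hx hy => rw [Prod.fst_add, Matrix.add_apply, hx, hy, add_zero]
    | smul a x _ hx => rw [Prod.smul_fst, Matrix.smul_apply, hx, smul_zero]
  · intro k a ha
    obtain ⟨_, ⟨z, hz, rfl⟩, h1, h2⟩ := hG.single (c := ⟨k, c k⟩) (Set.mem_univ _) ha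
    exact ⟨z, hz, h1, fun l hl => h2 _ fun e => hl (congrArg Sigma.fst e)⟩
  · intro x hx h0 k
    exact hc k _ (prC_mem T hx k) h0

end family

end Pool.Agent.H621.BC
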