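import Pool.Agent.H621.BC.Free

set_option autoImplicit false
set_option linter.unusedSectionVars false

/-!
# Families of planes without homomorphisms
-/

open Module TensorProduct Matrix

noncomputable section

namespace Pool.Agent.H621.BC

open Pool.Agent.Y102 Pool.Agent.W516.DR Pool.Agent.H204R3.GP Pool.Agent.W516.KC
  Pool.Agent.H204R3.SP Pool.Agent.R917 Pool.Agent.R917.GL

section span

variable {F k : Type*} [Field F] [Field k] [Algebra F k]
  {W : Type*} [AddCommGroup W] [Module F W] [FiniteDimensional F W]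
  {W' : Type*} [AddCommGroup W'] [Module F W'] [FiniteDimensional F W']

/-- the component of a linear map -/
def cmpH (lam : k →ₗ[F] F) (T : (k ⊗[F] W) →ₗ[k] (k ⊗[F] W')) : W →ₗ[F] W' :=
  cmp lam ∘ₗ (T.restrictScalars F) ∘ₗ (TensorProduct.mk F k W 1)

theorem cmpH_apply (lam : k →ₗ[F] F) (T : (k ⊗[F] W) →ₗ[k] (k ⊗[F] W')) (w : W) :
    cmpH lam T w = cmp lam (T ((1 : k) ⊗ₜ[F] w)) := rfl

/-- A linear map all of whose components have a property is a combination of extensions. -/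
theorem hom_mem_span (S : (W →ₗ[F] W') → Prop) (X : (k ⊗[F] W) →ₗ[k] (k ⊗[F] W'))
    (h : ∀ lam : k →ₗ[F] F, S (cmpH lam X)) :
    X ∈ Submodule.span k {P | ∃ P₀ : W →ₗ[F] W', S P₀ ∧ P = P₀.baseChange k} := by
  classical
  let b := Module.finBasis F W
  let b' := Module.finBasis F W'
  let c := Basis.ofVectorSpace F k
  let s : Finset (Basis.ofVectorSpaceIndex F k) :=
    Finset.univ.biUnion fun p : Fin (finrank F W) × Fin (finrank F W') =>
      (c.repr ((b'.baseChange k).repr (X (b.baseChange k p.1)) p.2)).support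
  have h1 : X = ∑ i ∈ s, c i • (cmpH (c.coord i) X).baseChange k := by
    refine (b.baseChange k).ext fun p => ?_
    apply (b'.baseChange k).repr.injective
    ext q
    rw [LinearMap.sum_apply, map_sum, Finsupp.finsetSum_apply]
    conv_lhs => rw [← c.linearCombination_repr ((b'.baseChange k).repr (X (b.baseChange k p)) q),
      Finsupp.linearCombination_apply, Finsupp.sum_of_support_subset _
      (Finset.subset_biUnion_of_mem (fun p : Fin (finrank F W) × Fin (finrank F W') =>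
      (c.repr ((b'.baseChange k).repr (X (b.baseChange k p.1)) p.2)).support)
      (Finset.mem_univ (p, q))) _ (fun i _ => zero_smul F (c i))]
    refine Finset.sum_congr rfl fun i _ => ?_
    rw [LinearMap.smul_apply, map_smul, Finsupp.smul_apply, smul_eq_mul, Basis.baseChange_apply,
      LinearMap.baseChange_tmul, Basis.baseChange_repr_tmul, cmpH_apply, Algebra.smul_def,
      mul_comm]
    congr 1
    -- the coordinates of the component
    have h2 : ∀ z : k ⊗[F] W', b'.repr (cmp (c.coord i) z) q =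
        c.coord i ((b'.baseChange k).repr z q) := by
      intro z
      induction z with
      | zero => simp only [map_zero, Finsupp.zero_apply]
      | add z z' h h' => simp only [map_add, Finsupp.add_apply, h, h']
      | tmul a w =>
        rw [cmp_tmul, map_smul, Finsupp.smul_apply, Basis.baseChange_repr_tmul]
        rw [map_smul, smul_eq_mul, smul_eq_mul, mul_comm]
    rw [h2, Algebra.smul_def, mul_one]
    rfl
  rw [h1]
  exact Submodule.sum_mem _ fun i _ => Submodule.smul_mem _ _ (Submodule.subset_span ⟨_, h _, rfl⟩)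

end span

variable {r : ℕ} {κ : Type} {g : κ → ℕ} {h h' : ℕ}

/-- All homomorphisms vanish on the plane. -/
def NHp {A : AbVar h} (T : PT A) (c : Fin h) (B : AbVar h') : Prop :=
  ∀ f, IsHom A B f → f.baseChange ℂ ∘ₗ T.S.pr c = 0

/-- **Homomorphisms between planes come from homomorphisms of abelian varieties.** -/
theorem crossP {A : AbVar h} {B : AbVar h'} (S : PT A) (S' : PT B) (c : Fin h)
    (d : Fin h') (P : M2) (hP : ∀ (D : Derivation QBar ℂ ℂ) (lam : ℂ →ₗ[ℚ] ℚ),
      P * S.S.xi ((X0 A.basis tau D lam).baseChange ℂ) c =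
        S'.S.xi ((X0 B.basis tau D lam).baseChange ℂ) d * P)
    (hNH : NHp S c B) : P = 0 := by
  let T : (ℂ ⊗[ℚ] A.H1) →ₗ[ℂ] (ℂ ⊗[ℚ] B.H1) := S'.S.b d ∘ₗ Matrix.toLin' P ∘ₗ S.S.p c
  have hT : ∀ v, T v = S'.S.b d (P *ᵥ S.S.p c v) := fun v => rfl
  have hcom : ∀ (D : Derivation QBar ℂ ℂ) (lam : ℂ →ₗ[ℚ] ℚ) v,
      T ((X0 A.basis tau D lam).baseChange ℂ v) =
      (X0 B.basis tau D lam).baseChange ℂ (T v) := by
    intro D lam v
    rw [hT, hT, S.S.p_apply (CC_of_cx (X0_bc_mem A D lam)), S'.S.apply_b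
      (CC_of_cx (X0_bc_mem B D lam)), Matrix.mulVec_mulVec, Matrix.mulVec_mulVec, hP]
  have hspan : T ∈ Submodule.span ℂ {P | ∃ P₀ : A.H1 →ₗ[ℚ] B.H1, IsHom A B P₀ ∧
      P = P₀.baseChange ℂ} := by
    refine hom_mem_span (F := ℚ) (k := ℂ) (W := A.H1) (W' := B.H1) (IsHom A B) T fun lam₀ => ?_
    refine isHom_of_comm A B _ fun D lam w => ?_
    have h2 : cmpH lam₀ T (X0 A.basis tau D lam w) = X0 B.basis tau D lam (cmpH lam₀ T w) := by
      rw [cmpH_apply, cmpH_apply, ← cmp_baseChange, ← hcom, LinearMap.baseChange_tmul]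
    have e1 := congrArg (fun Z : Module.End ℚ A.H1 => Z w) (X0_eq (A := A) D lam)
    have e2 := congrArg (fun Z : Module.End ℚ B.H1 => Z (cmpH lam₀ T w)) (X0_eq (A := B) D lam)
    simp only [LinearMap.add_apply, LinearMap.smul_apply, Module.End.one_apply] at e1 e2
    rw [← e1, ← e2, map_add, map_smul, h2]
  have hT1 : ∀ Z ∈ Submodule.span ℂ {P | ∃ P₀ : A.H1 →ₗ[ℚ] B.H1, IsHom A B P₀ ∧
      P = P₀.baseChange ℂ}, Z ∘ₗ S.S.pr c = 0 := by
    intro Z hZ
    induction hZ using Submodule.span_induction with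
    | mem Z hZ =>
      obtain ⟨f, hf, rfl⟩ := hZ
      exact hNH f hf
    | zero => rw [LinearMap.zero_comp]
    | add a b _ _ ha hb => rw [LinearMap.add_comp, ha, hb, add_zero]
    | smul t a _ ha => rw [LinearMap.smul_comp, ha, smul_zero]
  refine mat_ext fun v => ?_
  have h4 := congrArg (fun Z : (ℂ ⊗[ℚ] A.H1) →ₗ[ℂ] (ℂ ⊗[ℚ] B.H1) => Z (S.S.b c v)) (hT1 T hspan)
  simp only [LinearMap.comp_apply, LinearMap.zero_apply] at h4
  rw [CP.pr_apply, S.S.pb, hT, S.S.pb] at h4
  rw [S'.S.b_inj h4, Matrix.zero_mulVec]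

theorem crossP' {A : AbVar h} {B : AbVar h'} (S : PT A) (S' : PT B) (c : Fin h)
    (d : Fin h') (P : M2) (hP : ∀ (D : Derivation QBar ℂ ℂ) (lam : ℂ →ₗ[ℚ] ℚ),
      P * S.S.xi ((X0 A.basis tau D lam).baseChange ℂ) c =
        S'.S.xi ((X0 B.basis tau D lam).baseChange ℂ) d * P)
    (hNH : NHp S c B ∨ NHp S' d A) : P = 0 := by
  rcases hNH with hNH | hNH
  · exact crossP S S' c d P hP hNH
  · refine adj_zero (crossP S' S d c _ (fun D lam => ?_) hNH)
    exact adj_comm (S.S.xi_tz (S.N c) (X0_bc_mem A D lam)) (S'.S.xi_tz (S'.N d) (X0_bc_mem B D lam))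
      (hP D lam)

variable {X : ∀ k, AbVar (g k)} (T : ∀ k, PT (X k)) {C C' : Matrix (Fin r) (Fin r) ℂ}
  (c : ∀ k, (T k).Ic)

/-- the matrices at the selected planes -/
def selC : Rr r (If T) →ₗ[ℂ] (κ → M2) where
  toFun z k := z.2 ⟨k, c k⟩
  map_add' _ _ := rfl
  map_smul' _ _ := rfl

theorem gdp (hNH : ∀ k l, k ≠ l → NHp (T k) (c k).1 (X l) ∨ NHp (T l) (c l).1 (X k)) :
    Gd ((LLf T C C').map (selC T c)) (Set.univ : Set κ) where
  tr := by
    rintro _ ⟨z, hz, rfl⟩ i _
    exact LLf_tz T hz _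
  br := by
    rintro _ ⟨x, hx, rfl⟩ _ ⟨y, hy, rfl⟩
    exact ⟨_, LLf_br T x hx y hy, rfl⟩
  su := by
    rintro k _ x hx
    obtain ⟨Z, hZ, h1⟩ := (T k).S.su (full_qf (C := C) (C' := C') k) ((T k).N (c k).1) hx
    obtain ⟨z, hz, h2⟩ := LLf_lift T k hZ
    exact ⟨_, ⟨z, hz, rfl⟩, (h2 (c k)).trans h1⟩
  ho := by
    rintro k _ l _ hkl P hP
    refine crossP' (T k) (T l) (c k).1 (c l).1 P (fun D lam => ?_) (hNH k l hkl)
    have h3 := hP _ ⟨_, Submodule.subset_span ⟨_, X0_qf (C := C) (C' := C') D lam, rfl⟩, rfl⟩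
    exact h3
  cm := fun d hd => absurd (Set.mem_univ d) hd

/-- **The bound for a family of planes.** -/
theorem planes_bound [Fintype κ] {K : ℕ} {lev : Fin r → Fin K} (hC : BT lev C) (hC' : BT lev C')
    (hNH : ∀ k l, k ≠ l → NHp (T k) (c k).1 (X l) ∨ NHp (T l) (c l).1 (X k))
    (hcap : ∀ k, ∀ z ∈ LL1 (T k) C C', z.1 = 0 → z.2 (c k) = 0) :
    Fintype.card κ ≤ ∑ l ∈ Finset.range K, cnt lev l / 2 := by
  classical
  have hG := gdp T (C := C) (C' := C') c hNH
  refine bound_Rr lev (LLf_br T (C := C) (C' := C')) ?_ (fun k => ⟨k, c k⟩)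
    (fun x hx k => LLf_tz T hx _) ?_ ?_
  · intro x hx i j hij
    unfold LLf at hx
    induction hx using Submodule.span_induction with
    | mem x hx =>
      obtain ⟨y, ⟨_, a, hy⟩, rfl⟩ := hx
      change algebraMap ℚ ℂ (y.1 i j) = 0
      rw [lev_Lf hC hC' hy i j hij, map_zero]
    | zero => rfl
    | add x y _ _ hx hy => rw [Prod.fst_add, Matrix.add_apply, hx, hy, add_zero]
    | smul a x _ hx => rw [Prod.smul_fst, Matrix.smul_apply, hx, smul_zero]
  · intro k a ha
    obtain ⟨_, ⟨z, hz, rfl⟩, h1, h2⟩ := hG.single (c := k) (Set.mem_univ _) ha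
    exact ⟨z, hz, h1, fun l hl => h2 _ hl⟩
  · intro x hx h0 k
    exact hcap k _ (prC_mem T hx k) h0

/-! ### The exceptional planes -/

/-- A plane in the homology of an abelian variety which is a sum of planes. -/
structure Pln where
  h : ℕ
  A : AbVar h
  T : PT A
  c : T.Ic

/-- The plane is captured by the matrix. -/
def Capt (C C' : Matrix (Fin r) (Fin r) ℂ) (p : Pln) : Prop :=
  ∀ z ∈ LL1 p.T C C', z.1 = 0 → z.2 p.c = 0

/-- Two planes are not related -/
def Nr (p q : Pln) : Prop := NHp p.T p.c.1 q.A ∨ NHp q.T q.c.1 p.A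

theorem Nr.symm {p q : Pln} (h : Nr p q) : Nr q p := Or.symm h

theorem capt_bound [Fintype κ] {K : ℕ} {lev : Fin r → Fin K} (hC : BT lev C) (hC' : BT lev C')
    (p : κ → Pln) (h1 : ∀ k, Capt C C' (p k)) (h2 : ∀ k l, k ≠ l → Nr (p k) (p l)) :
    Fintype.card κ ≤ ∑ l ∈ Finset.range K, cnt lev l / 2 :=
  planes_bound (X := fun k => (p k).A) (fun k => (p k).T) (fun k => (p k).c) hC hC' h2 h1

/-- **A maximal family of captured planes.** -/
theorem exists_max {K : ℕ} {lev : Fin r → Fin K} (hC : BT lev C) (hC' : BT lev C') {Q : Type*}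
    (t : Q → Pln) :
    ∃ (m : ℕ) (p : Fin m → Q), m ≤ ∑ l ∈ Finset.range K, cnt lev l / 2 ∧
      ∀ q : Q, Capt C C' (t q) → (∀ k, NHp (t (p k)).T (t (p k)).c.1 (t q).A) → False := by
  classical
  let good : ℕ → Prop := fun m => ∃ p : Fin m → Q, (∀ k, Capt C C' (t (p k))) ∧
    ∀ k l, k ≠ l → Nr (t (p k)) (t (p l))
  have hb : ∀ m, good m → m ≤ ∑ l ∈ Finset.range K, cnt lev l / 2 := by
    rintro m ⟨p, h1, h2⟩
    have h3 := capt_bound hC hC' (fun k => t (p k)) h1 h2
    rwa [Fintype.card_fin] at h3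
  have h0 : good 0 := ⟨fun k => k.elim0, fun k => k.elim0, fun k => k.elim0⟩
  let m := Nat.findGreatest good (∑ l ∈ Finset.range K, cnt lev l / 2)
  have hm : good m := Nat.findGreatest_spec (Nat.zero_le _) h0
  obtain ⟨p, h1, h2⟩ := hm
  refine ⟨m, p, hb m ⟨p, h1, h2⟩, fun q hq hq2 => ?_⟩
  have hm1 : good (m + 1) := by
    refine ⟨Fin.snoc p q, fun k => ?_, fun k l hkl => ?_⟩
    · refine Fin.lastCases ?_ (fun i => ?_) k
      · rw [Fin.snoc_last]
        exact hq
      · rw [Fin.snoc_castSucc]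
        exact h1 i
    · revert hkl
      refine Fin.lastCases ?_ (fun i => ?_) k <;> refine Fin.lastCases ?_ (fun j => ?_) l
      · intro h
        exact absurd rfl h
      · intro _
        rw [Fin.snoc_last, Fin.snoc_castSucc]
        exact Or.inr (hq2 j)
      · intro _
        rw [Fin.snoc_last, Fin.snoc_castSucc]
        exact Or.inl (hq2 i)
      · intro h
        rw [Fin.snoc_castSucc, Fin.snoc_castSucc]
        exact h2 i j fun e => h (by rw [e])
  have h5 := Nat.le_findGreatest (hb _ hm1) hm1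
  change m + 1 ≤ m at h5
  omega

end Pool.Agent.H621.BC
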