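import Pool.Agent.H621.BC.Fam

set_option autoImplicit false
set_option linter.unusedSectionVars false

/-!
# A criterion for the independence of an abelian variety of a fixed matrix
-/

open Module TensorProduct Matrix

noncomputable section

namespace Pool.Agent.H621.BC

open Pool.Agent.Y102 Pool.Agent.W516.DR Pool.Agent.H204R3.GP Pool.Agent.W516.KC
  Pool.Agent.H204R3.SP Pool.Agent.R917 Pool.Agent.R917.GL

variable {r h : ℕ} {A : AbVar h} (T : PT A) {C C' : Matrix (Fin r) (Fin r) ℂ}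

include T in
/-- The Lie algebra is perfect. -/
theorem perf_NA {Y : Module.End ℚ A.H1} (hY : Y ∈ A.NA) : Y ∈ der A.NA := by
  obtain ⟨Z, hZ, d, hd, e1, e2⟩ := EC.full_NA.dec hY
  have hZ0 : Z = 0 := by
    apply bc_zero_iff
    refine T.inj0 (CC_of_cx (bc_mem hZ)) fun c => ?_
    have hcen : ∀ X ∈ cx A.NA, Z.baseChange ℂ * X = X * Z.baseChange ℂ := cx_comm fun X hX => by
      rw [← bc_mul, ← bc_mul, e2 X hX]
    obtain ⟨z, hz⟩ := T.S.sc_mat EC.full_NA (T.N c.1) (Q := T.S.xi (Z.baseChange ℂ) c.1)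
      (fun X hX => by
        rw [← T.S.xi_mul (CC_of_cx (bc_mem hZ)) (CC_of_cx hX),
          ← T.S.xi_mul (CC_of_cx hX) (CC_of_cx (bc_mem hZ)), hcen X hX])
    exact tz_of_scalar (T.S.xi_tz (T.N c.1) (bc_mem hZ)) hz
  rw [e1, hZ0, zero_add]
  exact hd

theorem LL1_tz {z : Rr r T.Ic} (hz : z ∈ LL1 T C C') (i : T.Ic) : tz (z.2 i) := by
  unfold LL1 at hz
  induction hz using Submodule.span_induction with
  | mem x hx =>
    obtain ⟨y, hy, rfl⟩ := hx
    exact T.S.xi_tz (T.N _) (bc_mem hy.1)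
  | zero =>
    unfold tz
    simp
  | add x y _ _ hx hy =>
    unfold tz at hx hy ⊢
    rw [Prod.snd_add, Pi.add_apply, Matrix.add_apply, Matrix.add_apply, hx, hy]
    ring
  | smul a x _ hx =>
    unfold tz at hx ⊢
    rw [Prod.smul_snd, Pi.smul_apply, Matrix.smul_apply, Matrix.smul_apply, hx, smul_neg]

theorem LL1_lift {Z : EC A} (hZ : Z ∈ cx ((q1 C C' A).map snd1)) :
    ∃ z ∈ LL1 T C C', ∀ c : T.Ic, z.2 c = T.S.xi Z c.1 := by
  induction hZ using Submodule.span_induction with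
  | mem Z hZ =>
    obtain ⟨_, ⟨x, hx, rfl⟩, rfl⟩ := hZ
    exact ⟨th1 T x, Submodule.subset_span ⟨x, hx, rfl⟩, fun c => rfl⟩
  | zero => exact ⟨0, Submodule.zero_mem _, fun c => by rw [map_zero]; rfl⟩
  | add a b _ _ ha hb =>
    obtain ⟨x, hx, h1⟩ := ha
    obtain ⟨y, hy, h2⟩ := hb
    exact ⟨x + y, Submodule.add_mem _ hx hy, fun c => by
      rw [Prod.snd_add, Pi.add_apply, h1, h2, map_add, Pi.add_apply]⟩
  | smul t a _ ha =>
    obtain ⟨x, hx, h1⟩ := ha
    exact ⟨t • x, Submodule.smul_mem _ _ hx, fun c => by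
      rw [Prod.smul_snd, Pi.smul_apply, h1, map_smul, Pi.smul_apply]⟩

theorem LL1_single (c : T.Ic) {x : M2} (hx : tz x) : ∃ z ∈ LL1 T C C', z.2 = Pi.single c x := by
  obtain ⟨_, ⟨Z, hZ, rfl⟩, h1, h2⟩ := (CP.gd T.C (full_q1 (C := C) (C' := C') (A := A))).single
    (c := ⟨c.1, Or.inl c.2⟩) (T.N _) hx
  obtain ⟨z, hz, h3⟩ := LL1_lift T hZ
  refine ⟨z, hz, ?_⟩
  funext d
  rw [h3]
  by_cases hd : d = c
  · subst hd
    rw [Pi.single_eq_same]
    exact h1
  · rw [Pi.single_eq_of_ne hd]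
    exact h2 ⟨d.1, Or.inl d.2⟩ fun e => hd (by
      have e2 := congrArg Subtype.val e
      exact Subtype.ext e2)

theorem lb_zr (x : M2) : x * 0 - 0 * x = 0 := by rw [mul_zero, zero_mul, sub_zero]

theorem lb_zl (x : M2) : 0 * x - x * 0 = 0 := by rw [mul_zero, zero_mul, sub_zero]

theorem br_single (c : T.Ic) (x : Matrix (Fin r) (Fin r) ℂ) (η : T.Ic → M2) (y : M2) :
    ((0, η) : Rr r T.Ic) * (x, Pi.single c y) - (x, Pi.single c y) * (0, η) =
      (0, Pi.single c (lb (η c) y)) := by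
  refine Prod.ext ?_ ?_
  · change 0 * x - x * 0 = 0
    rw [zero_mul, mul_zero, sub_zero]
  · funext d
    change η d * (Pi.single c y : T.Ic → M2) d - (Pi.single c y : T.Ic → M2) d * η d =
      (Pi.single c (lb (η c) y) : T.Ic → M2) d
    by_cases hd : d = c
    · subst hd
      rw [Pi.single_eq_same, Pi.single_eq_same]
      rfl
    · rw [Pi.single_eq_of_ne hd, Pi.single_eq_of_ne hd, lb_zr]

theorem LL1_ideal {c : T.Ic} {z : Rr r T.Ic} (hz : z ∈ LL1 T C C') (h0 : z.1 = 0)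
    (hc : z.2 c ≠ 0) {a : M2} (ha : tz a) : ((0, Pi.single c a) : Rr r T.Ic) ∈ LL1 T C C' := by
  let J : Submodule ℂ M2 :=
    { carrier := {a | tz a ∧ ((0, Pi.single c a) : Rr r T.Ic) ∈ LL1 T C C'}
      zero_mem' := ⟨by simp [tz], by
        rw [Pi.single_zero]
        exact (LL1 T C C').zero_mem⟩
      add_mem' := by
        rintro a b ⟨ha, ha'⟩ ⟨hb, hb'⟩
        refine ⟨?_, ?_⟩
        · unfold tz at ha hb ⊢
          rw [Matrix.add_apply, Matrix.add_apply, ha, hb]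
          ring
        · have h1 := (LL1 T C C').add_mem ha' hb'
          rw [Pi.single_add]
          rw [Prod.mk_add_mk, add_zero] at h1
          exact h1
      smul_mem' := by
        rintro t a ⟨ha, ha'⟩
        refine ⟨?_, ?_⟩
        · unfold tz at ha ⊢
          rw [Matrix.smul_apply, Matrix.smul_apply, ha, smul_neg]
        · have h1 := (LL1 T C C').smul_mem t ha'
          rw [Pi.single_smul]
          rw [Prod.smul_mk, smul_zero] at h1
          exact h1 }
  have hJ : ∀ a, a ∈ J ↔ tz a ∧ ((0, Pi.single c a) : Rr r T.Ic) ∈ LL1 T C C' := fun a => Iff.rfl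
  have hz' : z = (0, z.2) := Prod.ext h0 rfl
  obtain ⟨y, hy, hy0⟩ := exists_lb (LL1_tz T hz c) hc
  refine ((hJ a).1 (ideal_top (I := J) (x₀ := lb (z.2 c) y) (fun v hv => hv.1) ?_ ?_ hy0 ha)).2
  · rintro v ⟨hv, hv'⟩ y hy
    obtain ⟨w, hw, h1⟩ := LL1_single T (C := C) (C' := C') c (x := -y) (by
      unfold tz at hy ⊢
      rw [Matrix.neg_apply, Matrix.neg_apply, hy])
    refine ⟨lb_tz _ _, ?_⟩
    have h2 := LL1_br T _ hv' w hw
    have h3 : w = (w.1, Pi.single c (-y)) := Prod.ext rfl h1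
    rw [h3, br_single, Pi.single_eq_same] at h2
    have h4 : lb v (-y) = lb y v := by
      unfold lb
      rw [mul_neg, neg_mul, sub_neg_eq_add, neg_add_eq_sub]
    rwa [h4] at h2
  · obtain ⟨w, hw, h1⟩ := LL1_single T (C := C) (C' := C') c hy
    refine ⟨lb_tz _ _, ?_⟩
    have h2 := LL1_br T _ hz w hw
    have h3 : w = (w.1, Pi.single c y) := Prod.ext rfl h1
    rw [h3, hz', br_single] at h2
    exact h2

/-! ### Descent to the rational numbers -/

/-- the extension to the complex numbers -/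
def io (z : Al1 r h) : Matrix (Fin r) (Fin r) ℂ × Module.End ℂ (ℂ ⊗[ℚ] (Fin (2 * h) → ℚ)) :=
  (z.1.map (algebraMap ℚ ℂ), z.2.baseChange ℂ)

theorem descent {W : Submodule ℚ (Al1 r h)}
    {w : Matrix (Fin r) (Fin r) ℂ × Module.End ℂ (ℂ ⊗[ℚ] (Fin (2 * h) → ℚ))}
    (hw : w ∈ Submodule.span ℂ (io '' (W : Set (Al1 r h)))) :
    ∀ lam : ℂ →ₗ[ℚ] ℚ, ((w.1.map lam, cmpE lam w.2) : Al1 r h) ∈ W := by
  induction hw using Submodule.span_induction with
  | mem x hx =>
    obtain ⟨z, hz, rfl⟩ := hx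
    intro lam
    have h1 := W.smul_mem (lam 1) hz
    convert h1 using 1
    refine Prod.ext ?_ ?_
    · ext i j
      change lam (algebraMap ℚ ℂ (z.1 i j)) = lam 1 • z.1 i j
      rw [Algebra.algebraMap_eq_smul_one, map_smul, smul_eq_mul, smul_eq_mul, mul_comm]
    · refine LinearMap.ext fun v => ?_
      change cmp lam (z.2.baseChange ℂ ((1 : ℂ) ⊗ₜ[ℚ] v)) = lam 1 • z.2 v
      rw [LinearMap.baseChange_tmul, cmp_tmul]
  | zero =>
    intro lam
    convert W.zero_mem using 1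
    refine Prod.ext ?_ ?_
    · ext i j
      exact map_zero lam
    · refine LinearMap.ext fun v => ?_
      exact map_zero (cmp lam)
  | add x y _ _ hx hy =>
    intro lam
    convert W.add_mem (hx lam) (hy lam) using 1
    refine Prod.ext ?_ ?_
    · ext i j
      exact map_add lam _ _
    · refine LinearMap.ext fun v => ?_
      exact map_add (cmp lam) _ _
  | smul a x _ hx =>
    intro lam
    let mu : ℂ →ₗ[ℚ] ℚ := lam ∘ₗ (LinearMap.mulLeft ℚ a)
    have hmu : ∀ x, mu x = lam (a * x) := fun x => rfl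
    convert hx mu using 1
    refine Prod.ext ?_ ?_
    · ext i j
      rfl
    · refine LinearMap.ext fun v => ?_
      change cmp lam (a • x.2 ((1 : ℂ) ⊗ₜ[ℚ] v)) = cmp mu (x.2 ((1 : ℂ) ⊗ₜ[ℚ] v))
      generalize x.2 ((1 : ℂ) ⊗ₜ[ℚ] v) = u
      induction u with
      | zero => rw [smul_zero, map_zero, map_zero]
      | add u u' h h' => rw [smul_add, map_add, map_add, h, h']
      | tmul b w => rw [smul_tmul', cmp_tmul, cmp_tmul, hmu, smul_eq_mul]

theorem mem_of_io {W : Submodule ℚ (Al1 r h)} {z : Al1 r h}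
    (hz : io z ∈ Submodule.span ℂ (io '' (W : Set (Al1 r h)))) : z ∈ W := by
  obtain ⟨lam, hlam⟩ := exists_lam
  have h1 := descent hz lam
  convert h1 using 1
  refine Prod.ext ?_ ?_
  · ext i j
    change z.1 i j = lam (algebraMap ℚ ℂ (z.1 i j))
    rw [Algebra.algebraMap_eq_smul_one, map_smul, hlam, smul_eq_mul, mul_one]
  · refine LinearMap.ext fun v => ?_
    change z.2 v = cmp lam (z.2.baseChange ℂ ((1 : ℂ) ⊗ₜ[ℚ] v))
    rw [LinearMap.baseChange_tmul, cmp_tmul, hlam, one_smul]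

/-- the matrices of the second component -/
def XiL : (Matrix (Fin r) (Fin r) ℂ × EC A) →ₗ[ℂ] Rr r T.Ic where
  toFun w := (w.1, fun c => T.S.xi w.2 c.1)
  map_add' x y := by
    refine Prod.ext rfl ?_
    funext c
    change T.S.xi (x.2 + y.2) c.1 = _
    rw [map_add]
    rfl
  map_smul' a x := by
    refine Prod.ext rfl ?_
    funext c
    change T.S.xi (a • x.2) c.1 = _
    rw [map_smul]
    rfl

theorem LL1_eq : LL1 T C C' =
    (Submodule.span ℂ (io '' (q1 C C' A : Set (Al1 r h)))).map (XiL T) := by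
  rw [Submodule.map_span, ← Set.image_comp]
  rfl

/-- **The criterion.** -/
theorem free_of (hc : ∀ c : T.Ic, ∃ z ∈ LL1 T C C', z.1 = 0 ∧ z.2 c ≠ 0)
    {Y : Module.End ℚ A.H1} (hY : Y ∈ A.NA) : ((0, Y) : Al1 r h) ∈ L1 C C' A := by
  have h1 : ∀ η : T.Ic → M2, (∀ c, tz (η c)) → ((0, η) : Rr r T.Ic) ∈ LL1 T C C' := by
    intro η hη
    have h2 : ((0, η) : Rr r T.Ic) = ∑ c, ((0, Pi.single c (η c)) : Rr r T.Ic) := by
      refine Prod.ext ?_ ?_
      · rw [Prod.fst_sum]
        exact (Finset.sum_eq_zero fun _ _ => rfl).symm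
      · rw [Prod.snd_sum]
        exact (Finset.univ_sum_single η).symm
    rw [h2]
    refine Submodule.sum_mem _ fun c _ => ?_
    obtain ⟨z, hz, h0, hne⟩ := hc c
    exact LL1_ideal T hz h0 hne (hη c)
  have h2 : ∀ Y ∈ A.NA, ((0, Y) : Al1 r h) ∈ q1 C C' A := by
    intro Y hY
    refine mem_of_io ?_
    have h3 := h1 (fun c => T.S.xi (Y.baseChange ℂ) c.1) fun c =>
      T.S.xi_tz (T.N c.1) (bc_mem hY)
    rw [LL1_eq] at h3
    obtain ⟨w, hw, h4⟩ := h3
    have h5 : w.1 = 0 := congrArg Prod.fst h4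
    have h6 : ∀ c : T.Ic, T.S.xi w.2 c.1 = T.S.xi (Y.baseChange ℂ) c.1 := fun c =>
      congrFun (congrArg Prod.snd h4) c
    have h7 : w.2 ∈ cx A.NA := by
      clear h4 h5 h6
      induction hw using Submodule.span_induction with
      | mem x hx =>
        obtain ⟨z, hz, rfl⟩ := hx
        exact bc_mem hz.1
      | zero => exact Submodule.zero_mem _
      | add x y _ _ hx hy => exact Submodule.add_mem _ hx hy
      | smul a x _ hx => exact Submodule.smul_mem _ a hx
    have h8 : w.2 - Y.baseChange ℂ = 0 := T.inj0 (CC.sub (CC_of_cx h7) (CC_of_cx (bc_mem hY)))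
      fun c => by rw [map_sub, Pi.sub_apply, h6, sub_self]
    have h9 : io ((0, Y) : Al1 r h) = w := by
      refine Prod.ext ?_ (sub_eq_zero.1 h8).symm
      rw [h5]
      ext i j
      exact map_zero (algebraMap ℚ ℂ)
    rw [h9]
    exact hw
  have h3 : der A.NA ≤ (L1 C C' A).comap (LinearMap.inr ℚ _ _) := by
    unfold der
    rw [Submodule.span_le]
    rintro _ ⟨P, hP, Q, hQ, rfl⟩
    have h4 := q1_br_L (h2 P hP) (h2 Q hQ)
    change ((0, P * Q - Q * P) : Al1 r h) ∈ L1 C C' A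
    convert h4 using 1
    refine Prod.ext ?_ rfl
    change 0 = (0 : Matrix (Fin r) (Fin r) ℚ) * 0 - 0 * 0
    rw [mul_zero, sub_zero]
  exact h3 (perf_NA T hY)

end Pool.Agent.H621.BC
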