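import Pool.Agent.H621.BC.Free
import Pool.Agent.R917.MT
import Pool.Agent.R917.OM.Hdg

set_option autoImplicit false
set_option linter.unusedSectionVars false

/-!
# Algebraic groups which contain the periods of a sum
-/

open Module TensorProduct Matrix

noncomputable section

namespace Pool.Agent.H621.BC

open Pool.Agent.Y102 Pool.Agent.W516.DR Pool.Agent.H204R3.GP Pool.Agent.W516.KC
  Pool.Agent.H204R3.SP Pool.Agent.R917 Pool.Agent.TH119.MX

variable {r h : ℕ} {A : AbVar h} {C C' : Matrix (Fin r) (Fin r) ℂ}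

/-- the index set of the sum -/
abbrev RB (r h : ℕ) : Type := Fin r ⊕ Fin (2 * h)

/-- the matrix of an element of the Lie algebra -/
def emb (z : Al1 r h) : Matrix (RB r h) (RB r h) ℂ :=
  fromBlocks ((z.1.map (algebraMap ℚ ℂ))ᵀ) 0 0 (toC z.2)ᵀ

theorem emb_add (x y : Al1 r h) : emb (x + y) = emb x + emb y := by
  unfold emb
  rw [fromBlocks_add, add_zero, add_zero, Prod.fst_add, Prod.snd_add, toC_add]
  congr 1
  ext i j
  simp

theorem emb_smul (a : ℚ) (x : Al1 r h) : emb (a • x) = (a : ℂ) • emb x := by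
  unfold emb
  rw [fromBlocks_smul, smul_zero, smul_zero, Prod.smul_fst, Prod.smul_snd, toC_smul]
  congr 1
  ext i j
  simp

theorem emb_zero : emb (0 : Al1 r h) = 0 := by
  unfold emb
  rw [Prod.snd_zero, toC_zero, Prod.fst_zero]
  ext i j
  rcases i with i | i <;> rcases j with j | j <;> simp

theorem emb_br (x y : Al1 r h) : emb (x * y - y * x) = emb y * emb x - emb x * emb y := by
  unfold emb
  rw [fromBlocks_multiply, fromBlocks_multiply]
  simp only [Matrix.mul_zero, Matrix.zero_mul, add_zero, zero_add]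
  have h1 : (x * y - y * x).1 = x.1 * y.1 - y.1 * x.1 := rfl
  have h2 : (x * y - y * x).2 = x.2 * y.2 - y.2 * x.2 := rfl
  rw [h1, h2, map_br, toC_sub, toC_mul, toC_mul, Matrix.transpose_sub, Matrix.transpose_sub,
    Matrix.transpose_mul, Matrix.transpose_mul, Matrix.transpose_mul, Matrix.transpose_mul]
  ext i j
  rcases i with i | i <;> rcases j with j | j <;> simp

/-- **The Lie algebra of the group.** -/
theorem stab_L1 {H : Set (Matrix (RB r h) (RB r h) ℂ)} (hH : AlgGrp QQ H) (hC : C * C' = 1)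
    {T T' : Matrix (RB r h) (RB r h) ℂ} (hT : T * T' = 1) (hT' : ∀ i j, T' i j ∈ QA)
    (hpt : fromBlocks C 0 0 (PM A) * T ∈ H) :
    ∀ z ∈ L1 C C' A, ∀ d, Stab H d (emb z) := by
  let W : Submodule ℚ (Al1 r h) :=
    { carrier := {z | ∀ d, Stab H d (emb z)}
      zero_mem' := fun d => by
        rw [emb_zero]
        exact Stab.zero
      add_mem' := fun {x y} hx hy d => by
        rw [emb_add]
        exact (hx d).add (hy d)
      smul_mem' := fun a x hx d => by
        rw [emb_smul]
        exact (hx d).smul _ }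
  obtain ⟨P', h1, h2⟩ := exists_inv A
  have hC2 : C' * C = 1 := mul_eq_one_comm.1 hC
  have hle : L1 C C' A ≤ W := by
    refine L1_le (fun D lam d => ?_) fun x hx y hy d => ?_
    · have e1 : fromBlocks C 0 0 (PM A) * fromBlocks C' 0 0 P' =
          (1 : Matrix (RB r h) (RB r h) ℂ) := by
        rw [fromBlocks_multiply]
        simp only [Matrix.mul_zero, Matrix.zero_mul, add_zero, zero_add]
        rw [hC, h1, fromBlocks_one]
      have e2 : fromBlocks C' 0 0 P' * fromBlocks C 0 0 (PM A) =
          (1 : Matrix (RB r h) (RB r h) ℂ) := mul_eq_one_comm.1 e1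
      have e3 := hH.stab_der QQ_le_QA (fun x hx => mem_QA.1 hx) e1 e2 hT hT' hpt (d := d) (derQ D)
      have e4 := hH.stab_map (lamF lam) e3
      convert e4 using 1
      unfold emb g1
      change fromBlocks _ 0 0 (toC (Pool.Agent.W516.DR.cmpE lam (XX A.basis D)))ᵀ = _
      rw [toC_cmpE A D h2 lam]
      have e5 : (fromBlocks C 0 0 (PM A)).map (derQ D) * fromBlocks C' 0 0 P' =
          fromBlocks (C.map D * C') 0 0 ((PM A).map D * P') := by
        rw [fromBlocks_map, fromBlocks_multiply]
        have e6 : (0 : Matrix (Fin r) (Fin (2 * h)) ℂ).map (derQ D) = 0 := by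
          ext i j
          exact map_zero (derQ D)
        have e7 : (0 : Matrix (Fin (2 * h)) (Fin r) ℂ).map (derQ D) = 0 := by
          ext i j
          exact map_zero (derQ D)
        rw [e6, e7]
        simp only [Matrix.mul_zero, Matrix.zero_mul, add_zero, zero_add]
        rfl
      rw [e5, fromBlocks_map]
      have e6 : (0 : Matrix (Fin r) (Fin (2 * h)) ℂ).map (lamF lam) = 0 := by
        ext i j
        exact map_zero (lamF lam)
      have e7 : (0 : Matrix (Fin (2 * h)) (Fin r) ℂ).map (lamF lam) = 0 := by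
        ext i j
        exact map_zero (lamF lam)
      rw [e6, e7]
      congr 1
    · rw [emb_br]
      exact (hy d).comm (hx d)
  exact hle

theorem hm_comp (lam : ℂ →ₗ[ℚ] ℚ) : (hm A Complex.I).map (lamF lam) =
    (toC (A.cmpE (OM.fr lam) AbVar.JJ))ᵀ := by
  ext i j
  rw [Matrix.map_apply, lamF_apply, Matrix.transpose_apply, hm_apply]
  unfold toC
  rw [Matrix.of_apply, AbVar.cmpE_apply]
  have h3 : A.per (Pi.single i 1) = A.lam i := by
    have h4 := A.per_bas i
    unfold AbVar.bas at h4
    rwa [Pi.basisFun_apply] at h4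
  rw [h3]
  rfl

section norms

attribute [local instance] Matrix.linftyOpNormedRing Matrix.linftyOpNormedAlgebra

variable (r A) in
/-- the block diagonal matrices -/
def blk : (ℂ × ℂ) →+* Matrix (RB r h) (RB r h) ℂ where
  toFun x := fromBlocks (x.1 • 1) 0 0 (hm A x.2)
  map_one' := by
    rw [Prod.fst_one, Prod.snd_one, one_smul, hm_one, fromBlocks_one]
  map_mul' x y := by
    rw [fromBlocks_multiply]
    simp only [Matrix.mul_zero, Matrix.zero_mul, add_zero, zero_add, Prod.fst_mul, Prod.snd_mul,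
      hm_mul, Matrix.smul_mul, Matrix.one_mul, smul_smul]
  map_zero' := by
    rw [Prod.fst_zero, Prod.snd_zero, zero_smul, hm_zero, fromBlocks_zero]
  map_add' x y := by
    rw [fromBlocks_add, add_zero, add_zero, Prod.fst_add, Prod.snd_add, hm_add, add_smul]

theorem exp_blk (t : ℝ) :
    NormedSpace.exp ((t : ℂ) • fromBlocks (0 : Matrix (Fin r) (Fin r) ℂ) 0 0 (hm A Complex.I)) =
      fromBlocks 1 0 0 (hm A (Complex.exp (t * Complex.I))) := by
  have h1 : Continuous (blk r A) := by
    refine continuous_matrix fun i j => ?_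
    rcases i with i | i <;> rcases j with j | j
    · exact (continuous_fst.smul continuous_const)
    · exact continuous_const
    · exact continuous_const
    · exact ((continuous_hm A).comp continuous_snd).matrix_elem i j
  have h2 := NormedSpace.map_exp (blk r A) h1 ((0 : ℂ), (t : ℂ) * Complex.I)
  change fromBlocks ((NormedSpace.exp ((0 : ℂ), (t : ℂ) * Complex.I)).1 • 1) 0 0
    (hm A (NormedSpace.exp ((0 : ℂ), (t : ℂ) * Complex.I)).2) =
      NormedSpace.exp (fromBlocks ((0 : ℂ) • 1) 0 0 (hm A ((t : ℂ) * Complex.I))) at h2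
  rw [Prod.fst_exp, Prod.snd_exp, NormedSpace.exp_zero, one_smul, zero_smul, hm_real,
    ← Complex.exp_eq_exp_ℂ] at h2
  rw [fromBlocks_smul, smul_zero, smul_zero, smul_zero]
  exact h2.symm

end norms

/-- **The Hodge group is in the group.** -/
theorem hodge_mem {H : Set (Matrix (RB r h) (RB r h) ℂ)} (hH : AlgGrp QQ H)
    (hst : ∀ z ∈ L1 C C' A, ∀ d, Stab H d (emb z))
    (hfree : ∀ Y ∈ A.NA, ((0, Y) : Al1 r h) ∈ L1 C C' A) {z : ℂ} (hz : ‖z‖ = 1) :
    fromBlocks 1 0 0 (hm A z) ∈ H := by
  have h1 : ∀ d, Stab H d (fromBlocks 0 0 0 (hm A Complex.I)) := by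
    intro d
    refine OM.stab_of_comp fun lam => ?_
    have h2 := hst _ (hfree _ (A.MA_le_NA (A.J_mem (OM.fr lam)))) d
    convert h2 using 1
    unfold emb
    rw [fromBlocks_map, hm_comp]
    congr 1 <;>
    · ext i j
      simp
  obtain ⟨t, ht⟩ : ∃ t : ℝ, Complex.exp (t * Complex.I) = z := by
    refine ⟨Complex.arg z, ?_⟩
    have h2 := Complex.norm_mul_exp_arg_mul_I z
    rwa [hz, Complex.ofReal_one, one_mul] at h2
  have h2 := exp_mem hH (X := (t : ℂ) • fromBlocks 0 0 0 (hm A Complex.I))
    fun d => (h1 d).smul _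
  rw [exp_blk, ht] at h2
  exact h2

end Pool.Agent.H621.BC
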