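import Pool.Agent.R917.GL.Top

set_option autoImplicit false
set_option linter.unusedSectionVars false

/-!
# Homomorphisms of de Rham-Betti objects in terms of the logarithmic derivatives
-/

open Module TensorProduct

noncomputable section

namespace Pool.Agent.H621.BC

open Pool.Agent.Y102 Pool.Agent.W516.DR Pool.Agent.H204R3.GP Pool.Agent.W516.KC
  Pool.Agent.H204R3.SP

variable {k K L : Type*} [Field k] [Field K] [Field L] [CharZero k] [CharZero K] [CharZero L]
  [IsAlgClosed K] [Algebra k K] [Algebra k L]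
  [Algebra K L] [IsScalarTower k K L]
  {W : Type*} [AddCommGroup W] [Module k W] [FiniteDimensional k W]
  {W' : Type*} [AddCommGroup W'] [Module k W'] [FiniteDimensional k W']
  {ι : Type*} [Fintype ι] [DecidableEq ι] (η : Basis ι L (W →ₗ[k] L))
  {ι' : Type*} [Fintype ι'] [DecidableEq ι'] (η' : Basis ι' L (W' →ₗ[k] L))

theorem cmp_bcH (lam : L →ₗ[k] k) (P : W →ₗ[k] W') (z : L ⊗[k] W) :
    cmp lam (P.baseChange L z) = P (cmp lam z) := by
  induction z with
  | zero => simp only [map_zero]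
  | add z z' h h' => simp only [map_add, h, h']
  | tmul a w => rw [LinearMap.baseChange_tmul, cmp_tmul, cmp_tmul, map_smul]

theorem dW_bcH (D : Derivation K L L) (P : W →ₗ[k] W') (z : L ⊗[k] W) :
    dW D (P.baseChange L z) = P.baseChange L (dW D z) := by
  induction z with
  | zero => simp only [map_zero]
  | add z z' h h' => simp only [map_add, h, h']
  | tmul a w => rw [LinearMap.baseChange_tmul, dW_tmul, dW_tmul, LinearMap.baseChange_tmul]

/-- A linear map which commutes with the components of the logarithmic derivatives is a homomorphism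
of de Rham-Betti objects. -/
theorem hom_of_comm (P : W →ₗ[k] W')
    (h : ∀ (D : Derivation K L L) (lam : L →ₗ[k] k) (w : W),
      P (cmpE lam (XX η D) w) = cmpE lam (XX η' D) (P w)) :
    ∃ a : ι' → ι → K, ∀ i w, η' i (P w) = ∑ j, algebraMap K L (a i j) * η j w := by
  have h1 : ∀ (D : Derivation K L L) (z : L ⊗[k] W), XX η' D (P.baseChange L z) =
      P.baseChange L (XX η D z) := by
    intro D
    have h1 : ∀ w : W, XX η' D (P.baseChange L ((1 : L) ⊗ₜ[k] w)) =
        P.baseChange L (XX η D ((1 : L) ⊗ₜ[k] w)) := by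
      intro w
      rw [← sub_eq_zero]
      apply eq_zero_of_cmp
      intro lam
      rw [map_sub, cmp_bcH, LinearMap.baseChange_tmul, ← cmpE_apply, ← cmpE_apply, h D lam w,
        sub_self]
    intro z
    have h2 : ((XX η' D) ∘ₗ (P.baseChange L) : (L ⊗[k] W) →ₗ[L] (L ⊗[k] W')) =
        (P.baseChange L) ∘ₗ (XX η D) := by
      refine TensorProduct.AlgebraTensorModule.ext fun a w => ?_
      have h2 : a ⊗ₜ[k] w = a • ((1 : L) ⊗ₜ[k] w) := by rw [smul_tmul', smul_eq_mul, mul_one]
      rw [h2, map_smul, map_smul, LinearMap.comp_apply, h1]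
      rfl
    exact congrArg (fun T : (L ⊗[k] W) →ₗ[L] (L ⊗[k] W') => T z) h2
  have h2 : ∀ i j, ∃ a : K, algebraMap K L a = etaL η' i (P.baseChange L (ee η j)) := by
    intro i j
    apply mem_K
    intro D
    rw [← etaL_XX, dW_bcH, ← map_add, h1, XX_ee, map_neg, neg_add_cancel, map_zero]
  choose a ha using h2
  refine ⟨a, fun i w => ?_⟩
  have h3 : η' i (P w) = etaL η' i (P.baseChange L ((1 : L) ⊗ₜ[k] w)) := by
    rw [LinearMap.baseChange_tmul, etaL_tmul, one_mul]
  rw [h3]
  conv_lhs => rw [← sum_ee η ((1 : L) ⊗ₜ[k] w)]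
  rw [map_sum, map_sum]
  refine Finset.sum_congr rfl fun j _ => ?_
  rw [map_smul, map_smul, ← ha, etaL_tmul, one_mul, smul_eq_mul, mul_comm]

/-- `f` is a homomorphism (up to isogeny) from `A` to `B`: it is given by a linear map of the tangent
spaces, and the pull backs of the algebraic differential forms are algebraic. -/
def IsHom {g g' : ℕ} (A : AbVar g) (B : AbVar g') (f : A.H1 →ₗ[ℚ] B.H1) : Prop :=
  (∃ F : (Fin g → ℂ) →ₗ[ℂ] (Fin g' → ℂ), ∀ w, F (A.per w) = B.per (f w)) ∧
    ∃ e : Fin g' ⊕ Fin g' → Fin g ⊕ Fin g → QBar,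
      ∀ i w, B.dR i (f w) = ∑ j, algebraMap QBar ℂ (e i j) * A.dR j w

/-- **Homomorphisms of abelian varieties.** -/
theorem isHom_of_comm {g g' : ℕ} (A : AbVar g) (B : AbVar g') (f : A.H1 →ₗ[ℚ] B.H1)
    (h : ∀ (D : Derivation QBar ℂ ℂ) (lam : ℂ →ₗ[ℚ] ℚ) (w : A.H1),
      f (cmpE lam (XX A.basis D) w) = cmpE lam (XX B.basis D) (f w)) : IsHom A B f := by
  obtain ⟨a, ha⟩ := hom_of_comm A.basis B.basis f h
  rw [A.coe_basis, B.coe_basis] at ha
  obtain ⟨Q, hQ⟩ := A.hodge_hom B (P := f) ⟨a, ha⟩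
  exact ⟨⟨Q, fun w => (hQ w).symm⟩, a, ha⟩

end Pool.Agent.H621.BC
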