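import Pool.Agent.H914R2.Sl2Rep

set_option autoImplicit false

/-!
# Commuting `sl(2)`-triples: the dimension is at least twice their number
-/

open Module Finset

noncomputable section

namespace Pool.Agent.H621.BC

open Pool.Agent.H914

/-- change the sign of one coordinate -/
def flip {ι : Type} [DecidableEq ι] (i : ι) (χ : ι → ℂ) : ι → ℂ := Function.update χ i (-(χ i))

theorem flip_same {ι : Type} [DecidableEq ι] (i : ι) (χ : ι → ℂ) : flip i χ i = - χ i := by
  simp [flip]

theorem flip_of_ne {ι : Type} [DecidableEq ι] {i j : ι} (h : j ≠ i) (χ : ι → ℂ) :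
    flip i χ j = χ j := by
  simp [flip, h]

theorem two_mul_le_two_pow (n : ℕ) : 2 * n ≤ 2 ^ n := by
  induction n with
  | zero => simp
  | succ n ih =>
    rcases Nat.eq_zero_or_pos n with rfl | hn
    · simp
    · have h1 : 2 ≤ 2 ^ n := by
        calc 2 = 2 ^ 1 := rfl
          _ ≤ 2 ^ n := Nat.pow_le_pow_right (by norm_num) hn
      rw [pow_succ]
      omega

/-- the change of signs in a set -/
def sgn {ι : Type} [DecidableEq ι] (χ : ι → ℂ) (A : Finset ι) : ι → ℂ :=
  fun j => if j ∈ A then - χ j else χ j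

theorem card_flip {ι : Type} [DecidableEq ι] (n : ℕ) : ∀ (M : Finset (ι → ℂ)) (S : Finset ι),
    S.card ≤ n → (∀ i ∈ S, ∀ χ ∈ M, flip i χ ∈ M) → (∀ i ∈ S, ∃ χ ∈ M, χ i ≠ 0) →
      2 * S.card ≤ M.card := by
  classical
  induction n with
  | zero =>
    intro M S hS _ _
    have : S.card = 0 := Nat.le_zero.1 hS
    rw [this]
    simp
  | succ n ih =>
    intro M S hS h1 h2
    rcases S.eq_empty_or_nonempty with rfl | ⟨i, hi⟩
    · simp
    obtain ⟨χ, hχ, hχi⟩ := h2 i hi
    let T : Finset ι := S.filter fun j => χ j ≠ 0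
    have hT : ∀ j, j ∈ T ↔ j ∈ S ∧ χ j ≠ 0 := fun j => Finset.mem_filter
    let O : Finset (ι → ℂ) := T.powerset.image (sgn χ)
    have hO : ∀ ψ, ψ ∈ O ↔ ∃ A, A ⊆ T ∧ sgn χ A = ψ := fun ψ => by
      simp [O]
    have hinj : Set.InjOn (sgn χ) (T.powerset : Finset (Finset ι)) := by
      intro A hA B hB hAB
      have hA' : A ⊆ T := by simpa using hA
      have hB' : B ⊆ T := by simpa using hB
      ext j
      have h3 := congrFun hAB j
      unfold sgn at h3
      by_cases hjA : j ∈ A <;> by_cases hjB : j ∈ B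
      · simp [hjA, hjB]
      · rw [if_pos hjA, if_neg hjB] at h3
        have h4 := ((hT j).1 (hA' hjA)).2
        exact absurd (self_eq_neg.1 h3.symm) h4
      · rw [if_neg hjA, if_pos hjB] at h3
        have h4 := ((hT j).1 (hB' hjB)).2
        exact absurd (self_eq_neg.1 h3) h4
      · simp [hjA, hjB]
    have hOc : O.card = 2 ^ T.card := by
      change (T.powerset.image (sgn χ)).card = _
      rw [Finset.card_image_of_injOn hinj, Finset.card_powerset]
    have hOM : O ⊆ M := by
      intro ψ hψ
      obtain ⟨A, hA, rfl⟩ := (hO ψ).1 hψ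
      clear hψ
      induction A using Finset.induction_on with
      | empty =>
        have : sgn χ ∅ = χ := by
          funext j
          simp [sgn]
        rw [this]
        exact hχ
      | insert a A ha ihA =>
        have hA2 : A ⊆ T := fun x hx => hA (Finset.mem_insert_of_mem hx)
        have h3 := ihA hA2
        have haT := hA (Finset.mem_insert_self a A)
        have h4 : sgn χ (insert a A) = flip a (sgn χ A) := by
          funext j
          by_cases hja : j = a
          · subst hja
            rw [flip_same]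
            simp [sgn, ha]
          · rw [flip_of_ne hja]
            simp [sgn, hja]
        rw [h4]
        exact h1 a ((hT a).1 haT).1 _ h3
    have hz : ∀ ψ ∈ O, ∀ j ∈ S, j ∉ T → ψ j = 0 := by
      intro ψ hψ j hj hjT
      obtain ⟨A, hA, rfl⟩ := (hO ψ).1 hψ
      have h3 : χ j = 0 := by
        by_contra h
        exact hjT ((hT j).2 ⟨hj, h⟩)
      simp [sgn, h3]
    have hTS : T ⊆ S := Finset.filter_subset _ _
    have hTi : i ∈ T := (hT i).2 ⟨hi, hχi⟩
    have hTpos : 0 < T.card := Finset.card_pos.2 ⟨i, hTi⟩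
    have hc := Finset.card_sdiff_add_card_eq_card hTS
    have h5 := ih (M \ O) (S \ T) (by omega) (by
      intro j hj ψ hψ
      obtain ⟨hjS, hjT⟩ := Finset.mem_sdiff.1 hj
      obtain ⟨hψM, hψO⟩ := Finset.mem_sdiff.1 hψ
      refine Finset.mem_sdiff.2 ⟨h1 j hjS ψ hψM, fun h => hψO ?_⟩
      have h6 := hz _ h j hjS hjT
      rw [flip_same, neg_eq_zero] at h6
      have h7 : flip j ψ = ψ := by
        funext k
        by_cases hk : k = j
        · subst hk
          rw [flip_same, h6, neg_zero]
        · rw [flip_of_ne hk]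
      rwa [h7] at h) (by
      intro j hj
      obtain ⟨hjS, hjT⟩ := Finset.mem_sdiff.1 hj
      obtain ⟨ψ, hψ, hψj⟩ := h2 j hjS
      exact ⟨ψ, Finset.mem_sdiff.2 ⟨hψ, fun h => hψj (hz ψ h j hjS hjT)⟩, hψj⟩)
    have h6 := Finset.card_sdiff_add_card_eq_card hOM
    have h7 := two_mul_le_two_pow T.card
    omega

variable {V : Type} [AddCommGroup V] [Module ℂ V] [FiniteDimensional ℂ V]

section

variable [Module ℚ V]

theorem exp_comm {a b : Module.End ℂ V} (ha : IsNilpotent a) (h : Commute a b) :
    Commute (IsNilpotent.exp a) b := by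
  obtain ⟨N, hN⟩ := ha
  rw [IsNilpotent.exp_eq_sum hN]
  refine Commute.sum_left _ _ _ fun k _ => ?_
  exact Commute.smul_left (h.pow_left k) _

theorem weyl_unit {h e f : Module.End ℂ V} (t : Sl2 h e f) : IsUnit (weyl e f) := by
  unfold weyl
  exact ((IsNilpotent.isUnit_exp t.nil_e).mul (IsNilpotent.isUnit_exp t.nil_f.neg)).mul
    (IsNilpotent.isUnit_exp t.nil_e)

theorem weyl_comm {h e f b : Module.End ℂ V} (t : Sl2 h e f) (h1 : Commute e b)
    (h2 : Commute f b) : Commute (weyl e f) b := by
  unfold weyl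
  exact ((exp_comm t.nil_e h1).mul_left (exp_comm t.nil_f.neg h2.neg_left)).mul_left
    (exp_comm t.nil_e h1)

end

/-- **Commuting `sl(2)`-triples.** -/
theorem sl2_bound {ι : Type} [Fintype ι] (e h f : ι → Module.End ℂ V)
    (t : ∀ i, Sl2 (h i) (e i) (f i)) (he : ∀ i, e i ≠ 0)
    (c1 : ∀ i j, i ≠ j → Commute (e i) (h j)) (c2 : ∀ i j, i ≠ j → Commute (f i) (h j))
    (c3 : ∀ i j, Commute (h i) (h j)) : 2 * Fintype.card ι ≤ finrank ℂ V := by
  classical
  letI : Module ℚ V := Module.compHom V (algebraMap ℚ ℂ)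
  let W : (ι → ℂ) → Submodule ℂ V := fun χ => ⨅ i, (h i).maxGenEigenspace (χ i)
  have hW : ∀ χ v, v ∈ W χ ↔ ∀ j, ∃ k : ℕ, ((h j - χ j • (1 : Module.End ℂ V)) ^ k) v = 0 :=
    fun χ v => Module.End.mem_iInf_maxGenEigenspace_iff h χ v
  have hmaps : ∀ i j φ, Set.MapsTo (h i) ((h j).maxGenEigenspace φ) ((h j).maxGenEigenspace φ) :=
    fun i j φ => Module.End.mapsTo_maxGenEigenspace_of_comm (c3 j i) φ
  have hind : iSupIndep W := Module.End.independent_iInf_maxGenEigenspace_of_forall_mapsTo h hmaps
  have htop : ⨆ χ, W χ = ⊤ :=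
    Module.End.iSup_iInf_maxGenEigenspace_eq_top_of_forall_mapsTo h hmaps
      fun i => Module.End.iSup_maxGenEigenspace_eq_top (h i)
  have hfin : {χ | W χ ≠ ⊥}.Finite := WellFoundedGT.finite_ne_bot_of_iSupIndep hind
  let M : Finset (ι → ℂ) := hfin.toFinset
  have hM : ∀ χ, χ ∈ M ↔ W χ ≠ ⊥ := fun χ => by simp [M]
  have hcard : M.card ≤ finrank ℂ V := by
    have : Fintype {χ // W χ ≠ ⊥} := hfin.fintype
    have h1 := hind.subtype_ne_bot_le_finrank
    have h2 : M.card = Fintype.card {χ // W χ ≠ ⊥} := by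
      rw [Fintype.card_of_subtype M hM]
    rw [h2]
    convert h1
  refine le_trans ?_ hcard
  rw [← Finset.card_univ]
  refine card_flip _ M Finset.univ le_rfl ?_ ?_
  · intro i _ χ hχ
    rw [hM] at hχ ⊢
    obtain ⟨v, hv, hv0⟩ := Submodule.exists_mem_ne_zero_of_ne_bot hχ
    intro hbot
    let w := weyl (e i) (f i)
    have hw : IsUnit w := weyl_unit (t i)
    have h1 : w v ∈ W (flip i χ) := by
      rw [hW] at hv ⊢
      intro j
      obtain ⟨k, hk⟩ := hv j
      refine ⟨k, ?_⟩
      by_cases hj : j = i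
      · subst hj
        have e1 : (h j - flip j χ j • (1 : Module.End ℂ V)) * w =
            w * -(h j - χ j • (1 : Module.End ℂ V)) := by
          have e2 := (t j).weyl_h (t j).nil_e (t j).nil_f
          change w * h j = -(h j * w) at e2
          rw [flip_same, neg_smul, sub_neg_eq_add, add_mul, smul_mul_assoc, one_mul, mul_neg,
            mul_sub, mul_smul_comm, mul_one, e2]
          abel
        have e3 : ∀ k : ℕ, (h j - flip j χ j • (1 : Module.End ℂ V)) ^ k * w =
            w * (-(h j - χ j • (1 : Module.End ℂ V))) ^ k := by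
          intro k
          induction k with
          | zero => simp
          | succ k ih => rw [pow_succ', mul_assoc, ih, ← mul_assoc, e1, mul_assoc, ← pow_succ']
        have e4 := congrArg (fun T : Module.End ℂ V => T v) (e3 k)
        simp only [Module.End.mul_apply] at e4
        rw [e4, neg_pow, Module.End.mul_apply, hk, map_zero, map_zero]
      · have e1 : Commute w (h j) := weyl_comm (t i) (c1 i j (Ne.symm hj)) (c2 i j (Ne.symm hj))
        have e2 : Commute w ((h j - χ j • (1 : Module.End ℂ V)) ^ k) :=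
          (e1.sub_right ((Commute.one_right w).smul_right _)).pow_right k
        rw [flip_of_ne hj]
        have e4 := congrArg (fun T : Module.End ℂ V => T v) e2.eq
        simp only [Module.End.mul_apply] at e4
        rw [← e4, hk, map_zero]
    rw [hbot, Submodule.mem_bot] at h1
    obtain ⟨u, hu⟩ := hw
    have h2 := congrArg (fun x => (↑u⁻¹ : Module.End ℂ V) x) h1
    simp only [map_zero] at h2
    rw [← hu, ← Module.End.mul_apply, Units.inv_mul, Module.End.one_apply] at h2
    exact hv0 h2
  · intro i _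
    by_contra hcon
    push Not at hcon
    have h1 : (⊤ : Submodule ℂ V) ≤ (h i).maxGenEigenspace 0 := by
      rw [← htop]
      refine iSup_le fun χ => ?_
      by_cases hχ : W χ = ⊥
      · rw [hχ]
        exact bot_le
      · have h2 := hcon χ ((hM χ).2 hχ)
        refine (iInf_le _ i).trans ?_
        rw [h2]
    have h2 : IsNilpotent (h i) := by
      have h3 : ∃ k, ∀ v, ((h i) ^ k) v = 0 := by
        have h4 := (h i).maxGenEigenspace_eq_genEigenspace_finrank (0 : ℂ)
        refine ⟨finrank ℂ V, fun v => ?_⟩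
        have h5 := h1 (Submodule.mem_top : v ∈ ⊤)
        rw [h4, Module.End.mem_genEigenspace_nat] at h5
        simpa using h5
      obtain ⟨k, hk⟩ := h3
      exact ⟨k, LinearMap.ext hk⟩
    obtain ⟨k, hk⟩ := h2
    apply he i
    have h3 : ∀ k : ℕ, (h i - (2 : ℂ) • (1 : Module.End ℂ V)) ^ k * e i = e i * (h i) ^ k := by
      intro k
      induction k with
      | zero => simp
      | succ k ih =>
        rw [pow_succ', mul_assoc, ih, ← mul_assoc]
        have e1 := (t i).e_h
        have e2 : (h i - (2 : ℂ) • (1 : Module.End ℂ V)) * e i = e i * h i := by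
          rw [e1]
          congr 1
          congr 1
          ext v
          simp [two_smul, Module.End.ofNat_apply]
        rw [e2, mul_assoc, ← pow_succ']
    have h4 := h3 k
    rw [hk, mul_zero] at h4
    have h5 : IsUnit (h i - (2 : ℂ) • (1 : Module.End ℂ V)) := by
      have h6 : IsUnit (-((2 : ℂ) • (1 : Module.End ℂ V)) + h i) := by
        refine IsNilpotent.isUnit_add_left_of_commute ⟨k, hk⟩ ?_ ?_
        · refine IsUnit.neg ?_
          exact (isUnit_one.smul (Units.mk0 (2 : ℂ) two_ne_zero))
        · exact ((Commute.one_right (h i)).smul_right _).neg_right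
      convert h6 using 1
      abel
    exact (h5.pow k).mul_right_eq_zero.1 h4

end Pool.Agent.H621.BC
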